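import Mathlib

set_option autoImplicit false

namespace Run7.h886

variable {V : Type*}

/-- `x` is reached from `S` by a path alternating between the colours `i` and `j`
whose later vertices lie in `W`. -/
inductive Rch (F : SimpleGraph V) (col : V → Fin 3) (i j : Fin 3) (W S : Set V) : V → Prop
  | base (x : V) : x ∈ S → Rch F col i j W S x
  | step (x y : V) : Rch F col i j W S x → F.Adj x y → y ∈ W →
      ((col x = i ∧ col y = j) ∨ (col x = j ∧ col y = i)) → Rch F col i j W S y

/-- a chain in colours `i, j` from `S` (colour `i`) to `T` (colour `j`) through `W` -/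
def Lk (F : SimpleGraph V) (col : V → Fin 3) (i j : Fin 3) (W S T : Set V) : Prop :=
  ∃ x, Rch F col i j W S x ∧ col x = i ∧ ∃ y ∈ T, F.Adj x y ∧ col y = j

/-- `x` is reached from `S` by a path with `c`-bichromatic edges whose later vertices lie in `Y` -/
inductive Con (F : SimpleGraph V) (c : V → Bool) (Y S : Set V) : V → Prop
  | base (x : V) : x ∈ S → Con F c Y S x
  | step (x y : V) : Con F c Y S x → F.Adj x y → y ∈ Y → c x ≠ c y → Con F c Y S y

theorem Con.mono {F : SimpleGraph V} {c : V → Bool} {Y Y' S S' : Set V} (hY : Y ⊆ Y')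
    (hS : S ⊆ S') {x : V} (h : Con F c Y S x) : Con F c Y' S' x := by
  induction h with
  | base x hx => exact Con.base x (hS hx)
  | step x y _ hxy hy hc ih => exact Con.step x y ih hxy (hY hy) hc

theorem Con.trans {F : SimpleGraph V} {c : V → Bool} {Y Y' S S' : Set V} (hY : Y ⊆ Y')
    (hS : ∀ s ∈ S, Con F c Y' S' s) {x : V} (h : Con F c Y S x) : Con F c Y' S' x := by
  induction h with
  | base x hx => exact hS x hx
  | step x y _ hxy hy hc ih => exact Con.step x y ih hxy (hY hy) hc

theorem Con.congr {F : SimpleGraph V} {c c' : V → Bool} {Y S : Set V}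
    (hc : ∀ x ∈ S ∪ Y, c x = c' x) {x : V} (h : Con F c Y S x) :
    Con F c' Y S x ∧ x ∈ S ∪ Y := by
  induction h with
  | base x hx => exact ⟨Con.base x hx, Or.inl hx⟩
  | step x y _ hxy hy hcc ih =>
    refine ⟨Con.step x y ih.1 hxy hy ?_, Or.inr hy⟩
    rw [← hc x ih.2, ← hc y (Or.inr hy)]
    exact hcc

theorem Rch.mono {F : SimpleGraph V} {col : V → Fin 3} {i j : Fin 3} {W W' S S' : Set V}
    (hW : W ⊆ W') (hS : S ⊆ S') {x : V} (h : Rch F col i j W S x) : Rch F col i j W' S' x := by
  induction h with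
  | base x hx => exact Rch.base x (hS hx)
  | step x y _ hxy hy hc ih => exact Rch.step x y ih hxy (hW hy) hc

theorem Rch.mem {F : SimpleGraph V} {col : V → Fin 3} {i j : Fin 3} {W S : Set V}
    {x : V} (h : Rch F col i j W S x) : x ∈ S ∪ W := by
  cases h with
  | base x hx => exact Or.inl hx
  | step x y _ hxy hy hc => exact Or.inr hy

theorem Lk.mono {F : SimpleGraph V} {col : V → Fin 3} {i j : Fin 3} {W W' S S' T T' : Set V}
    (hW : W ⊆ W') (hS : S ⊆ S') (hT : T ⊆ T') (h : Lk F col i j W S T) :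
    Lk F col i j W' S' T' := by
  obtain ⟨x, hx, hxi, y, hy, hxy, hyj⟩ := h
  exact ⟨x, hx.mono hW hS, hxi, y, hT hy, hxy, hyj⟩

theorem Rch.swap {F : SimpleGraph V} {col : V → Fin 3} {i j : Fin 3} {W S : Set V}
    {x : V} (h : Rch F col i j W S x) : Rch F col j i W S x := by
  induction h with
  | base x hx => exact Rch.base x hx
  | step x y _ hxy hy hc ih => exact Rch.step x y ih hxy hy (Or.symm hc)

/-- chains can be reversed -/
theorem Lk.symm {F : SimpleGraph V} {col : V → Fin 3} {i j : Fin 3} {W S T : Set V}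
    (hij : i ≠ j) (hS : ∀ x ∈ S, col x = i)
    (h : Lk F col i j W S T) : Lk F col j i W T S := by
  obtain ⟨x, hx, hxi, y, hy, hxy, hyj⟩ := h
  have key : ∀ x, Rch F col i j W S x → (col x = i ∨ col x = j) → ∀ z, Rch F col j i W T z →
      F.Adj z x → ((col z = i ∧ col x = j) ∨ (col z = j ∧ col x = i)) → Lk F col j i W T S := by
    intro x hx
    induction hx with
    | base x hx =>
      intro _ z hz hzx hc
      rcases hc with hc | hc
      · exact absurd ((hS x hx).symm.trans hc.2) hij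
      · exact ⟨z, hz, hc.1, x, hx, hzx, hc.2⟩
    | step x y _ hxy hy hc ih =>
      intro _ z hz hzy hc'
      refine ih (by rcases hc with h | h; exact Or.inl h.1; exact Or.inr h.1) y
        (Rch.step z y hz hzy hy (Or.symm hc')) hxy.symm ?_
      rcases hc with h | h
      · exact Or.inr ⟨h.2, h.1⟩
      · exact Or.inl ⟨h.2, h.1⟩
  exact key x hx (Or.inl hxi) y (Rch.base y hy) hxy.symm (Or.inr ⟨hyj, hxi⟩)

/-- the conclusion of the rooted lemma -/
def Sol (F : SimpleGraph V) (W : Set V) (R : Fin 3 → Set V) : Prop :=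
  ∃ (c : V → Bool) (Y : Fin 3 → Set V), (∀ i, Y i ⊆ W) ∧ (∀ i j, i ≠ j → Disjoint (Y i) (Y j)) ∧
    (∀ i, ∀ x ∈ R i, c x = false) ∧ (∀ i, ∀ y ∈ Y i, Con F c (Y i) (R i) y) ∧
    (∀ i j, i ≠ j → ∃ x ∈ R i ∪ Y i, ∃ y ∈ R j ∪ Y j, F.Adj x y ∧ c x = c y)

theorem fin3_third (i j : Fin 3) (h : i ≠ j) : ∃ k, k ≠ i ∧ k ≠ j ∧
    ∀ a, a = i ∨ a = j ∨ a = k := by
  revert i j; decide

theorem fin3_all (i j k : Fin 3) (hij : i ≠ j) (hik : i ≠ k) (hjk : j ≠ k) :
    ∀ a, a = i ∨ a = j ∨ a = k := by
  revert i j k; decide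

theorem f3_11 : ∀ i : Fin 3, i + 1 + 1 = i + 2 := by decide
theorem f3_21 : ∀ i : Fin 3, i + 2 + 1 = i := by decide
theorem f3_22 : ∀ i : Fin 3, i + 2 + 2 = i + 1 := by decide
theorem f3_12 : ∀ i : Fin 3, i + 1 + 2 = i := by decide
theorem f3_cases : ∀ i j : Fin 3, j = i ∨ j = i + 1 ∨ j = i + 2 := by decide
theorem f3_ne1 : ∀ i : Fin 3, i ≠ i + 1 := by decide
theorem f3_ne2 : ∀ i : Fin 3, i ≠ i + 2 := by decide
theorem f3_ne12 : ∀ i : Fin 3, i + 1 ≠ i + 2 := by decide
theorem f3_ij : ∀ i j : Fin 3, i ≠ j → (j + 1 = i) ∨ (i + 1 = j) := by decide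

/-- Case 0: two of the root sets are adjacent. -/
theorem sol_adj (F : SimpleGraph V) (col : V → Fin 3) (W : Set V) (R : Fin 3 → Set V)
    (hcol : ∀ i, ∀ x ∈ R i, col x = i) (hdis : ∀ i, Disjoint (R i) W)
    (hL : ∀ i j, i ≠ j → Lk F col i j W (R i) (R j))
    (i j : Fin 3) (hij : i ≠ j) (x0 y0 : V) (hx0 : x0 ∈ R i) (hy0 : y0 ∈ R j)
    (hadj : F.Adj x0 y0) : Sol F W R := by
  classical
  obtain ⟨k, hki, hkj, hall⟩ := fin3_third i j hij
  -- c is true exactly on W-vertices of colour ≠ k
  let c : V → Bool := fun x => decide (x ∈ W ∧ col x ≠ k)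
  let Yk : Set V := {x | x ∈ W ∧ (Rch F col k i W (R k) x ∨ Rch F col k j W (R k) x)}
  have hR : ∀ a, ∀ x ∈ R a, c x = false := by
    intro a x hx
    have : x ∉ W := fun h => (Set.disjoint_left.mp (hdis a)) hx h
    simp [c, this]
  have hck : ∀ x, col x = k → c x = false := by
    intro x hx; simp [c, hx]
  have hcn : ∀ x ∈ W, col x ≠ k → c x = true := by
    intro x hx h; simp [c, hx, h]
  have hcon : ∀ a, a ≠ k → ∀ x, Rch F col k a W (R k) x →
      Con F c ({x | x ∈ W ∧ Rch F col k a W (R k) x}) (R k) x := by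
    intro a hak x hx
    induction hx with
    | base x hx => exact Con.base x hx
    | step x y hx hxy hy hc ih =>
      refine Con.step x y ih hxy ⟨hy, Rch.step x y hx hxy hy hc⟩ ?_
      rcases hc with h | h
      · rw [hck x h.1, hcn y hy (by rw [h.2]; exact hak)]; decide
      · have hxW : x ∈ W := by
          rcases hx.mem with h' | h'
          · exact absurd ((hcol k x h').symm.trans h.1) (Ne.symm hak)
          · exact h'
        rw [hck y h.2, hcn x hxW (by rw [h.1]; exact hak)]; decide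
  refine ⟨c, fun a => if a = k then Yk else ∅, ?_, ?_, hR, ?_, ?_⟩
  · intro a
    by_cases ha : a = k
    · simp only [ha, if_true]; intro x hx; exact hx.1
    · simp [ha]
  · intro a b hab
    by_cases ha : a = k
    · have hb : b ≠ k := fun h => hab (ha.trans h.symm)
      simp [hb]
    · simp [ha]
  · intro a y hy
    by_cases ha : a = k
    · subst ha
      simp only [if_true] at hy ⊢
      rcases hy.2 with h | h
      · refine (hcon i (Ne.symm hki) y h).mono ?_ (le_refl _)
        intro z hz; exact ⟨hz.1, Or.inl hz.2⟩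
      · refine (hcon j (Ne.symm hkj) y h).mono ?_ (le_refl _)
        intro z hz; exact ⟨hz.1, Or.inr hz.2⟩
    · simp [ha] at hy
  · -- cross edges
    have hk : ∀ a, a ≠ k → ∃ x ∈ R k ∪ Yk, ∃ y ∈ R a, F.Adj x y ∧ c x = c y := by
      intro a hak
      obtain ⟨x, hx, hxk, y, hy, hxy, -⟩ := hL k a (Ne.symm hak)
      refine ⟨x, ?_, y, hy, hxy, ?_⟩
      · rcases hx.mem with h | h
        · exact Or.inl h
        · right
          refine ⟨h, ?_⟩
          rcases hall a with h1 | h1 | h1
          · left; rw [← h1]; exact hx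
          · right; rw [← h1]; exact hx
          · exact absurd h1 hak
      · rw [hck x hxk, hR a y hy]
    intro a b hab
    by_cases ha : a = k
    · have hb : b ≠ k := fun h => hab (ha.trans h.symm)
      obtain ⟨x, hx, y, hy, h1, h2⟩ := hk b hb
      refine ⟨x, ?_, y, Or.inl hy, h1, h2⟩
      rw [ha]; simpa using hx
    · by_cases hb : b = k
      · obtain ⟨x, hx, y, hy, h1, h2⟩ := hk a ha
        refine ⟨y, Or.inl hy, x, ?_, h1.symm, h2.symm⟩
        rw [hb]; simpa using hx
      · rcases hall a with h1 | h1 | h1 <;> rcases hall b with h2 | h2 | h2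
        · exact absurd (h1.trans h2.symm) hab
        · subst h1; subst h2
          exact ⟨x0, Or.inl hx0, y0, Or.inl hy0, hadj, by rw [hR _ _ hx0, hR _ _ hy0]⟩
        · exact absurd h2 hb
        · subst h1; subst h2
          exact ⟨y0, Or.inl hy0, x0, Or.inl hx0, hadj.symm, by rw [hR _ _ hx0, hR _ _ hy0]⟩
        · exact absurd (h1.trans h2.symm) hab
        · exact absurd h2 hb
        · exact absurd h1 ha
        · exact absurd h1 ha
        · exact absurd h1 ha

/-- Absorbing a vertex `w` next to `R i` which is not needed for the pair `j k`. -/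
theorem sol_absorb (F : SimpleGraph V) (col : V → Fin 3) (W : Set V) (R : Fin 3 → Set V)
    (hcol : ∀ i, ∀ x ∈ R i, col x = i) (hdis : ∀ i, Disjoint (R i) W)
    (hL : ∀ i j, i ≠ j → Lk F col i j W (R i) (R j))
    (i j k : Fin 3) (hij : i ≠ j) (hik : i ≠ k) (hjk : j ≠ k) (w r : V) (hw : w ∈ W)
    (hwj : col w = j) (hr : r ∈ R i) (hrw : F.Adj r w)
    (hjkL : Lk F col j k (W \ {w}) (R j) (R k))
    (IH : ∀ W' : Set V, W' ⊂ W → ∀ R' : Fin 3 → Set V, (∀ i, ∀ x ∈ R' i, col x = i) →
      (∀ i, Disjoint (R' i) W') → (∀ i j, i ≠ j → Lk F col i j W' (R' i) (R' j)) →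
      Sol F W' R') : Sol F W R := by
  classical
  let N : Set V := {x | x ∈ W ∧ col x = i ∧ F.Adj w x}
  let W' : Set V := {x | x ∈ W ∧ x ≠ w ∧ x ∉ N}
  let R' : Fin 3 → Set V := fun a => if a = i then R i ∪ N else R a
  have hR'i : R' i = R i ∪ N := by simp [R']
  have hR'n : ∀ a, a ≠ i → R' a = R a := by intro a ha; simp [R', ha]
  have hW'W : W' ⊆ W := fun x hx => hx.1
  have hss : W' ⊂ W := ⟨hW'W, fun h => (h hw).2.1 rfl⟩
  have hRR' : ∀ a, R a ⊆ R' a := by
    intro a
    by_cases ha : a = i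
    · subst ha; rw [hR'i]; exact Set.subset_union_left
    · rw [hR'n a ha]
  have hcol' : ∀ a, ∀ x ∈ R' a, col x = a := by
    intro a x hx
    by_cases ha : a = i
    · subst ha; rw [hR'i] at hx
      rcases hx with h | h
      · exact hcol _ x h
      · exact h.2.1
    · rw [hR'n a ha] at hx; exact hcol a x hx
  have hdis' : ∀ a, Disjoint (R' a) W' := by
    intro a
    rw [Set.disjoint_left]
    intro x hx hxW
    by_cases ha : a = i
    · subst ha; rw [hR'i] at hx
      rcases hx with h | h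
      · exact (Set.disjoint_left.mp (hdis _)) h hxW.1
      · exact hxW.2.2 h
    · rw [hR'n a ha] at hx; exact (Set.disjoint_left.mp (hdis a)) hx hxW.1
  -- the pair i j
  have hij' : Lk F col i j W' (R' i) (R' j) := by
    obtain ⟨x, hx, hxi, y, hy, hxy, hyj⟩ := hL i j hij
    have key : ∀ x, Rch F col i j W (R i) x → x = w ∨ Rch F col i j W' (R' i) x := by
      intro x hx
      induction hx with
      | base x hx => exact Or.inr (Rch.base x (hRR' i hx))
      | step x y hx hxy hy hc ih =>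
        by_cases hyw : y = w
        · exact Or.inl hyw
        · right
          by_cases hyN : y ∈ N
          · exact Rch.base y (by rw [hR'i]; exact Or.inr hyN)
          · rcases ih with h | h
            · subst h
              rcases hc with h | h
              · exact absurd (h.1.symm.trans hwj) hij
              · exact absurd ⟨hy, h.2, hxy⟩ hyN
            · exact Rch.step x y h hxy ⟨hy, hyw, hyN⟩ hc
    rcases key x hx with h | h
    · subst h; exact absurd (hxi.symm.trans hwj) hij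
    · exact ⟨x, h, hxi, y, hRR' j hy, hxy, hyj⟩
  -- the pair i k
  have hik' : Lk F col i k W' (R' i) (R' k) := by
    obtain ⟨x, hx, hxi, y, hy, hxy, hyj⟩ := hL i k hik
    have key : ∀ x, Rch F col i k W (R i) x → Rch F col i k W' (R' i) x := by
      intro x hx
      induction hx with
      | base x hx => exact Rch.base x (hRR' i hx)
      | step x y hx hxy hy hc ih =>
        by_cases hyN : y ∈ N
        · exact Rch.base y (by rw [hR'i]; exact Or.inr hyN)
        · refine Rch.step x y ih hxy ⟨hy, ?_, hyN⟩ hc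
          intro h; subst h
          rcases hc with h | h
          · exact hjk (hwj.symm.trans h.2)
          · exact hij (h.2.symm.trans hwj)
    exact ⟨x, key x hx, hxi, y, hRR' k hy, hxy, hyj⟩
  -- the pair j k
  have hjk' : Lk F col j k W' (R' j) (R' k) := by
    obtain ⟨x, hx, hxi, y, hy, hxy, hyj⟩ := hjkL
    have key : ∀ x, Rch F col j k (W \ {w}) (R j) x → Rch F col j k W' (R' j) x := by
      intro x hx
      induction hx with
      | base x hx => exact Rch.base x (hRR' j hx)
      | step x y hx hxy hy hc ih =>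
        refine Rch.step x y ih hxy ⟨hy.1, hy.2, ?_⟩ hc
        intro h
        rcases hc with h' | h'
        · exact hik (h.2.1.symm.trans h'.2)
        · exact hij (h.2.1.symm.trans h'.2)
    exact ⟨x, key x hx, hxi, y, hRR' k hy, hxy, hyj⟩
  have hall : ∀ a : Fin 3, a = i ∨ a = j ∨ a = k := fin3_all i j k hij hik hjk
  have hL' : ∀ a b, a ≠ b → Lk F col a b W' (R' a) (R' b) := by
    intro a b hab
    rcases hall a with h1 | h1 | h1 <;> rcases hall b with h2 | h2 | h2 <;> rw [h1, h2]
    · exact absurd (h1.trans h2.symm) hab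
    · exact hij'
    · exact hik'
    · exact hij'.symm hij (hcol' i)
    · exact absurd (h1.trans h2.symm) hab
    · exact hjk'
    · exact hik'.symm hik (hcol' i)
    · exact hjk'.symm hjk (hcol' j)
    · exact absurd (h1.trans h2.symm) hab
  obtain ⟨c, Y, hYW, hYd, hcR, hYc, hcr⟩ := IH W' hss R' hcol' hdis' hL'
  -- new colouring
  let c' : V → Bool := fun x => if x = w then true else c x
  have hcc : ∀ x, x ≠ w → c x = c' x := by intro x hx; simp [c', hx]
  have hc'w : c' w = true := by simp [c']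
  have hwR : ∀ a, w ∉ R a := fun a h => (Set.disjoint_left.mp (hdis a)) h hw
  have hwR' : ∀ a, w ∉ R' a := by
    intro a h
    by_cases ha : a = i
    · rw [ha, hR'i] at h
      rcases h with h | h
      · exact hwR _ h
      · exact hij (h.2.1.symm.trans hwj)
    · rw [hR'n a ha] at h; exact hwR a h
  have hwY : ∀ a, w ∉ Y a := fun a h => (hYW a h).2.1 rfl
  have hwRY : ∀ a, ∀ x ∈ R' a ∪ Y a, x ≠ w := by
    intro a x hx h
    subst h
    rcases hx with h | h
    · exact hwR' a h
    · exact hwY a h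
  have hadjNw : ∀ x ∈ N, F.Adj w x := fun x hx => hx.2.2
  have hc'R : ∀ a, ∀ x ∈ R' a, c' x = false := by
    intro a x hx
    rw [← hcc x (hwRY a x (Or.inl hx))]; exact hcR a x hx
  let Y' : Fin 3 → Set V := fun a => if a = i then Y i ∪ ({w} ∪ N) else Y a
  have hY'i : Y' i = Y i ∪ ({w} ∪ N) := by simp [Y']
  have hY'n : ∀ a, a ≠ i → Y' a = Y a := by intro a ha; simp [Y', ha]
  have hsub : ∀ a, R' a ∪ Y a ⊆ R a ∪ Y' a := by
    intro a x hx
    by_cases ha : a = i
    · subst ha
      rw [hR'i] at hx; rw [hY'i]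
      rcases hx with (h | h) | h
      · exact Or.inl h
      · exact Or.inr (Or.inr (Or.inr h))
      · exact Or.inr (Or.inl h)
    · rw [hR'n a ha] at hx; rw [hY'n a ha]; exact hx
  refine ⟨c', Y', ?_, ?_, ?_, ?_, ?_⟩
  · intro a x hx
    by_cases ha : a = i
    · subst ha; rw [hY'i] at hx
      rcases hx with h | h | h
      · exact hW'W (hYW _ h)
      · rw [Set.mem_singleton_iff] at h; rw [h]; exact hw
      · exact h.1
    · rw [hY'n a ha] at hx; exact hW'W (hYW a hx)
  · have hd : ∀ b, b ≠ i → Disjoint (Y' i) (Y b) := by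
      intro b hb
      rw [hY'i, Set.disjoint_left]
      intro x hx hxb
      rcases hx with h | h | h
      · exact (Set.disjoint_left.mp (hYd i b (Ne.symm hb))) h hxb
      · rw [Set.mem_singleton_iff] at h; subst h; exact hwY b hxb
      · exact (hYW b hxb).2.2 h
    intro a b hab
    by_cases ha : a = i
    · have hb : b ≠ i := fun h => hab (ha.trans h.symm)
      rw [hY'n b hb, ha]; exact hd b hb
    · by_cases hb : b = i
      · rw [hY'n a ha, hb]; exact (hd a ha).symm
      · rw [hY'n a ha, hY'n b hb]; exact hYd a b hab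
  · intro a x hx
    exact hc'R a x (hRR' a hx)
  · intro a y hy
    by_cases ha : a = i
    · subst ha
      rw [hY'i] at hy ⊢
      have hwC : Con F c' (Y a ∪ ({w} ∪ N)) (R a) w := by
        refine Con.step r w (Con.base r hr) hrw (Or.inr (Or.inl rfl)) ?_
        rw [hc'w, hc'R a r (hRR' a hr)]; decide
      have hNC : ∀ x ∈ N, Con F c' (Y a ∪ ({w} ∪ N)) (R a) x := by
        intro x hx
        refine Con.step w x hwC (hadjNw x hx) (Or.inr (Or.inr hx)) ?_
        rw [hc'w, hc'R a x (by rw [hR'i]; exact Or.inr hx)]; decide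
      rcases hy with h | h | h
      · have h1 := (Con.congr (c' := c') (fun x hx => hcc x (hwRY a x hx)) (hYc a y h)).1
        refine h1.trans Set.subset_union_left ?_
        intro s hs
        rw [hR'i] at hs
        rcases hs with h | h
        · exact Con.base s h
        · exact hNC s h
      · rw [Set.mem_singleton_iff] at h; subst h; exact hwC
      · exact hNC y h
    · rw [hY'n a ha] at hy ⊢
      have h1 := (Con.congr (c' := c') (fun x hx => hcc x (hwRY a x hx)) (hYc a y hy)).1
      rw [hR'n a ha] at h1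
      exact h1
  · intro a b hab
    obtain ⟨x, hx, y, hy, hxy, hc⟩ := hcr a b hab
    refine ⟨x, hsub a hx, y, hsub b hy, hxy, ?_⟩
    rw [← hcc x (hwRY a x hx), ← hcc y (hwRY b y hy)]; exact hc

/-- If the neighbours of colour `j` of `R i` are missing then `R i` and `R j` are adjacent. -/
theorem Lk.first (F : SimpleGraph V) (col : V → Fin 3) (W : Set V) (R : Fin 3 → Set V)
    (hcol : ∀ i, ∀ x ∈ R i, col x = i) (i j : Fin 3) (hij : i ≠ j)
    (hno : ∀ x ∈ R i, ∀ y ∈ R j, ¬ F.Adj x y)
    (h : Lk F col i j W (R i) (R j)) :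
    ∃ b ∈ W, col b = j ∧ ∃ r ∈ R i, F.Adj r b := by
  by_contra hcon
  push Not at hcon
  obtain ⟨x, hx, hxi, y, hy, hxy, hyj⟩ := h
  have key : ∀ x, Rch F col i j W (R i) x → x ∈ R i := by
    intro x hx
    induction hx with
    | base x hx => exact hx
    | step x y hx hxy hy hc ih =>
      rcases hc with h | h
      · exact absurd hxy (hcon y hy h.2 x ih)
      · exact absurd ((hcol i x ih).symm.trans h.1) hij
  exact hno x (key x hx) y hy hxy

/-- The new link in a rotation: `A` (colour `i+1`, adjacent to `R i`) and `B`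
(colour `i+2`, adjacent to `R (i+1)`) are linked. -/
theorem rot_link (F : SimpleGraph V) (col : V → Fin 3) (W : Set V) (R : Fin 3 → Set V)
    (hcol : ∀ i, ∀ x ∈ R i, col x = i)
    (p q : Fin 3) (hpq : p ≠ q)
    (hno : ∀ x ∈ R p, ∀ y ∈ R q, ¬ F.Adj x y)
    (hL : Lk F col p q W (R p) (R q))
    (A B W' : Set V) (hA : ∀ x ∈ A, col x = p)
    (hB : B = {x | x ∈ W ∧ col x = q ∧ ∃ r ∈ R p, F.Adj r x})
    (hW' : ∀ x ∈ W, (col x = p ∨ col x = q) → x ∉ A → x ∉ B → x ∈ W')
    (hW'A : ∀ x ∈ W', x ∈ W ∧ x ∉ A)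
    (b : V) (hb : b ∈ A) (hcrit : ¬ Lk F col p q (W \ {b}) (R p) (R q)) :
    Lk F col q p W' B A := by
  by_contra hcon
  -- everything reachable from `R p` lies in `R p` or is reachable from `B` in `W'`
  have hU : ∀ x, Rch F col p q W (R p) x → x ∈ R p ∨ Rch F col q p W' B x := by
    intro x hx
    induction hx with
    | base x hx => exact Or.inl hx
    | step x y hx hxy hy hc ih =>
      right
      rcases ih with h | h
      · rcases hc with h' | h'
        · apply Rch.base; rw [hB]; exact ⟨hy, h'.2, x, h, hxy⟩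
        · exact absurd ((hcol p x h).symm.trans h'.1) hpq
      · by_cases hyB : y ∈ B
        · exact Rch.base y hyB
        · by_cases hyA : y ∈ A
          · exfalso; apply hcon
            have hyp := hA y hyA
            refine ⟨x, h, ?_, y, hyA, hxy, hyp⟩
            rcases hc with h' | h'
            · exact absurd (hyp.symm.trans h'.2) hpq
            · exact h'.1
          · refine Rch.step x y h hxy (hW' y hy ?_ hyA hyB) (Or.symm hc)
            rcases hc with h' | h'
            · exact Or.inr h'.2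
            · exact Or.inl h'.2
  have hV : ∀ x, Rch F col q p W' B x → Rch F col p q (W \ {b}) (R p) x := by
    intro x hx
    induction hx with
    | base x hx =>
      rw [hB] at hx
      obtain ⟨hxW, hxq, r, hr, hrx⟩ := hx
      refine Rch.step r x (Rch.base r hr) hrx ⟨hxW, ?_⟩ (Or.inl ⟨hcol p r hr, hxq⟩)
      intro h; rw [Set.mem_singleton_iff] at h; subst h
      exact hpq ((hA x hb).symm.trans hxq)
    | step x y hx hxy hy hc ih =>
      refine Rch.step x y ih hxy ⟨(hW'A y hy).1, ?_⟩ (Or.symm hc)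
      intro h; rw [Set.mem_singleton_iff] at h; subst h
      exact (hW'A y hy).2 hb
  obtain ⟨x, hx, hxp, y, hy, hxy, hyq⟩ := hL
  rcases hU x hx with h | h
  · exact hno x h y hy hxy
  · exact hcrit ⟨x, hV x h, hxp, y, hy, hxy, hyq⟩

/-- The rotation step. -/
theorem sol_rotate (F : SimpleGraph V) (col : V → Fin 3) (W : Set V) (R : Fin 3 → Set V)
    (hcol : ∀ i, ∀ x ∈ R i, col x = i) (hdis : ∀ i, Disjoint (R i) W)
    (hL : ∀ i j, i ≠ j → Lk F col i j W (R i) (R j))
    (hno : ∀ i j, i ≠ j → ∀ x ∈ R i, ∀ y ∈ R j, ¬ F.Adj x y)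
    (hcrit : ∀ i j k, i ≠ j → i ≠ k → j ≠ k → ∀ w ∈ W, col w = j → ∀ r ∈ R i, F.Adj r w →
      ¬ Lk F col j k (W \ {w}) (R j) (R k))
    (IH : ∀ W' : Set V, W' ⊂ W → ∀ R' : Fin 3 → Set V, (∀ i, ∀ x ∈ R' i, col x = i) →
      (∀ i, Disjoint (R' i) W') → (∀ i j, i ≠ j → Lk F col i j W' (R' i) (R' j)) →
      Sol F W' R') : Sol F W R := by
  classical
  -- `A i`: vertices of colour `i+1` adjacent to `R i`
  let A : Fin 3 → Set V := fun i => {x | x ∈ W ∧ col x = i + 1 ∧ ∃ r ∈ R i, F.Adj r x}
  let W' : Set V := {x | x ∈ W ∧ ∀ i, x ∉ A i}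
  let R' : Fin 3 → Set V := fun j => A (j + 2)
  have h1 := f3_ne1
  have h2 := f3_ne2
  have h12 := f3_ne12
  have hR'A : ∀ i, R' (i + 1) = A i := by
    intro i
    show A (i + 1 + 2) = A i
    rw [f3_12]
  have hexb : ∀ i, ∃ b ∈ A i, True := by
    intro i
    obtain ⟨b, hbW, hbc, r, hr, hrb⟩ := Lk.first F col W R hcol i (i+1) (h1 i)
      (hno i (i+1) (h1 i)) (hL i (i+1) (h1 i))
    exact ⟨b, ⟨hbW, hbc, r, hr, hrb⟩, trivial⟩
  obtain ⟨b0, hb0, -⟩ := hexb 0
  have hss : W' ⊂ W := ⟨fun x hx => hx.1, fun h => (h hb0.1).2 0 hb0⟩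
  have hcol' : ∀ i, ∀ x ∈ R' i, col x = i := by
    intro i x hx
    have : col x = i + 2 + 1 := hx.2.1
    rw [this]; exact f3_21 i
  have hdis' : ∀ i, Disjoint (R' i) W' := by
    intro i
    rw [Set.disjoint_left]
    intro x hx hxW
    exact hxW.2 (i+2) hx
  -- links
  have hlink : ∀ i, Lk F col (i + 2) (i + 1) W' (R' (i + 2)) (R' (i + 1)) := by
    intro i
    obtain ⟨b, hb, -⟩ := hexb i
    have e2 : R' (i + 2) = A (i + 1) := by
      have := hR'A (i + 1)
      rw [f3_11 i] at this; exact this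
    rw [e2, hR'A i]
    refine rot_link F col W R hcol (i+1) (i+2) (h12 i) (hno _ _ (h12 i)) (hL _ _ (h12 i))
      (A i) (A (i+1)) W' (fun x hx => hx.2.1) ?_ ?_ ?_ b hb ?_
    · show {x | x ∈ W ∧ col x = i + 1 + 1 ∧ ∃ r ∈ R (i + 1), F.Adj r x} = _
      rw [f3_11 i]
    · intro x hx hc hxA hxB
      refine ⟨hx, ?_⟩
      intro j hj
      have hj1 : col x = j + 1 := hj.2.1
      rcases f3_cases i j with h | h | h
      · subst h; exact hxA hj
      · subst h; exact hxB hj
      · subst h
        rw [f3_21 i] at hj1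
        rcases hc with h | h
        · exact h1 i (hj1.symm.trans h)
        · exact h2 i (hj1.symm.trans h)
    · intro x hx; exact ⟨hx.1, hx.2 i⟩
    · obtain ⟨hbW, hbc, r, hr, hrb⟩ := hb
      exact hcrit i (i+1) (i+2) (h1 i) (h2 i) (h12 i) b hbW hbc r hr hrb
  have hL' : ∀ i j, i ≠ j → Lk F col i j W' (R' i) (R' j) := by
    intro i j hij
    rcases f3_ij i j hij with h | h
    · -- i = j+1: with base index a = j + 2 : (a+2, a+1) = (j+1, j)
      have := hlink (j + 2)
      rw [f3_22 j, f3_21 j, h] at this; exact this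
    · have := hlink (i + 2)
      rw [f3_22 i, f3_21 i, h] at this
      exact this.symm (Ne.symm hij) (hcol' j)
  obtain ⟨c, Y, hYW, hYd, hcR, hYc, hcr⟩ := IH W' hss R' hcol' hdis' hL'
  let c' : V → Bool := fun x => if x ∈ W then !(c x) else false
  have hc'W : ∀ x ∈ W, c' x = !(c x) := by intro x hx; simp [c', hx]
  have hRW : ∀ i, ∀ x ∈ R i, x ∉ W := fun i x hx h => (Set.disjoint_left.mp (hdis i)) hx h
  have hc'R : ∀ i, ∀ x ∈ R i, c' x = false := by
    intro i x hx; simp [c', hRW i x hx]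
  have hAW : ∀ i, A i ⊆ W := fun i x hx => hx.1
  have hYW2 : ∀ i, Y i ⊆ W := fun i x hx => (hYW i hx).1
  have hflip : ∀ (a : Fin 3) (x : V), Con F c (Y a) (R' a) x →
      Con F c' (Y a) (R' a) x ∧ x ∈ W := by
    intro a x hx
    induction hx with
    | base x hx => exact ⟨Con.base x hx, hAW _ hx⟩
    | step x y hx hxy hy hc ih =>
      refine ⟨Con.step x y ih.1 hxy hy ?_, hYW2 a hy⟩
      rw [hc'W x ih.2, hc'W y (hYW2 a hy)]
      intro h; apply hc; exact Bool.not_inj h
  have hAd : ∀ i j, i ≠ j → Disjoint (A i) (A j) := by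
    intro i j hij
    rw [Set.disjoint_left]
    intro x hx hy
    have := hx.2.1.symm.trans hy.2.1
    exact hij (add_right_cancel this)
  refine ⟨c', fun i => A i ∪ Y (i + 1), ?_, ?_, hc'R, ?_, ?_⟩
  · intro i x hx
    rcases hx with h | h
    · exact hAW i h
    · exact hYW2 _ h
  · intro i j hij
    rw [Set.disjoint_left]
    intro x hx hy
    rcases hx with h | h <;> rcases hy with h' | h'
    · exact (Set.disjoint_left.mp (hAd i j hij)) h h'
    · exact (hYW _ h').2 i h
    · exact (hYW _ h).2 j h'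
    · exact (Set.disjoint_left.mp (hYd (i+1) (j+1) (fun h => hij (add_right_cancel h)))) h h'
  · intro i y hy
    have hAC : ∀ x ∈ A i, Con F c' (A i ∪ Y (i + 1)) (R i) x := by
      intro x hx
      obtain ⟨hxW, hxc, r, hr, hrx⟩ := hx
      refine Con.step r x (Con.base r hr) hrx (Or.inl ⟨hxW, hxc, r, hr, hrx⟩) ?_
      have hx' : x ∈ R' (i + 1) := by rw [hR'A]; exact ⟨hxW, hxc, r, hr, hrx⟩
      rw [hc'R i r hr, hc'W x hxW, hcR (i+1) x hx']; decide
    rcases hy with h | h
    · exact hAC y h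
    · have := (hflip (i+1) y (hYc (i+1) y h)).1
      refine this.trans Set.subset_union_right ?_
      intro s hs
      rw [hR'A] at hs
      exact hAC s hs
  · intro i j hij
    obtain ⟨x, hx, y, hy, hxy, hc⟩ := hcr (i+1) (j+1) (fun h => hij (add_right_cancel h))
    have hmem : ∀ a, ∀ x ∈ R' (a + 1) ∪ Y (a + 1), x ∈ A a ∪ Y (a + 1) ∧ x ∈ W := by
      intro a x hx
      rcases hx with h | h
      · rw [hR'A] at h; exact ⟨Or.inl h, hAW a h⟩
      · exact ⟨Or.inr h, hYW2 _ h⟩
    refine ⟨x, Or.inr (hmem i x hx).1, y, Or.inr (hmem j y hy).1, hxy, ?_⟩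
    rw [hc'W x (hmem i x hx).2, hc'W y (hmem j y hy).2, hc]

/-- **Rooted odd-K3 from three chains.** -/
theorem k3 [Finite V] (F : SimpleGraph V) (col : V → Fin 3) (W : Set V) :
    ∀ (R : Fin 3 → Set V), (∀ i, ∀ x ∈ R i, col x = i) → (∀ i, Disjoint (R i) W) →
    (∀ i j, i ≠ j → Lk F col i j W (R i) (R j)) → Sol F W R := by
  induction W using WellFoundedLT.induction with
  | ind W IH =>
    intro R hcol hdis hL
    by_cases h0 : ∃ i j, i ≠ j ∧ ∃ x ∈ R i, ∃ y ∈ R j, F.Adj x y
    · obtain ⟨i, j, hij, x, hx, y, hy, hxy⟩ := h0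
      exact sol_adj F col W R hcol hdis hL i j hij x y hx hy hxy
    · push Not at h0
      by_cases h1 : ∃ i j k, i ≠ j ∧ i ≠ k ∧ j ≠ k ∧ ∃ w ∈ W, col w = j ∧ ∃ r ∈ R i,
          F.Adj r w ∧ Lk F col j k (W \ {w}) (R j) (R k)
      · obtain ⟨i, j, k, hij, hik, hjk, w, hw, hwj, r, hr, hrw, hl⟩ := h1
        exact sol_absorb F col W R hcol hdis hL i j k hij hik hjk w r hw hwj hr hrw hl
          (fun W' hW' => IH W' hW')
      · push Not at h1
        exact sol_rotate F col W R hcol hdis hL h0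
          (fun i j k hij hik hjk w hw hwj r hr hrw => h1 i j k hij hik hjk w hw hwj r hr hrw)
          (fun W' hW' => IH W' hW')

end Run7.h886
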