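import Mathlib
import Pool.Agent.Run7.h886.K3

set_option autoImplicit false

namespace Run7.h886

variable {V : Type*}

/-- A rooted odd-K3: disjoint sets `X i` with roots `r i ∈ S` of sign `false`, each `X i` connected by
bichromatic edges, and a monochromatic edge between any two of them. -/
def Rooted3 (F : SimpleGraph V) (S : Set V) : Prop :=
  ∃ (c : V → Bool) (X : Fin 3 → Set V) (r : Fin 3 → V),
    (∀ i, r i ∈ S ∧ c (r i) = false ∧ r i ∈ X i) ∧
    (∀ i, ∀ x ∈ X i, Con F c (X i) {r i} x) ∧
    (∀ i j, i ≠ j → Disjoint (X i) (X j)) ∧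
    (∀ i j, i ≠ j → ∃ x ∈ X i, ∃ y ∈ X j, F.Adj x y ∧ c x = c y)

theorem Rooted3.mono {F : SimpleGraph V} {S S' : Set V} (h : S ⊆ S') (hr : Rooted3 F S) :
    Rooted3 F S' := by
  obtain ⟨c, X, r, h1, h2, h3, h4⟩ := hr
  exact ⟨c, X, r, fun i => ⟨h (h1 i).1, (h1 i).2⟩, h2, h3, h4⟩

section core

variable (F : SimpleGraph V) (φ : V → Fin 3)

/-- the graph on the vertices not coloured `0` -/
def Bg : SimpleGraph V where
  Adj x y := F.Adj x y ∧ φ x ≠ 0 ∧ φ y ≠ 0
  symm := ⟨fun _ _ h => ⟨h.1.symm, h.2.2, h.2.1⟩⟩
  loopless := ⟨fun x h => F.loopless.irrefl x h.1⟩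

open Classical in
/-- flip colours 1 and 2 on some components of `Bg` -/
noncomputable def flipc (σ : (Bg F φ).ConnectedComponent → Bool) (x : V) : Fin 3 :=
  if φ x = 0 then 0 else
    if σ ((Bg F φ).connectedComponentMk x) = true then (if φ x = 1 then 2 else 1) else φ x

variable {F φ}

theorem flipc_zero {σ : (Bg F φ).ConnectedComponent → Bool} {x : V} :
    flipc F φ σ x = 0 ↔ φ x = 0 := by
  unfold flipc
  split_ifs with h1 h2 h3
  · simp [h1]
  · simp [h1]
  · simp [h1]
  · rfl

theorem flipc_false {σ : (Bg F φ).ConnectedComponent → Bool} {x : V}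
    (h : σ ((Bg F φ).connectedComponentMk x) = false) : flipc F φ σ x = φ x := by
  unfold flipc
  split_ifs with h1 h2 h3
  · exact h1.symm
  · rw [h] at h2; exact absurd h2 (by decide)
  · rw [h] at h2; exact absurd h2 (by decide)
  · rfl

theorem flipc_true {σ : (Bg F φ).ConnectedComponent → Bool} {x : V}
    (h : σ ((Bg F φ).connectedComponentMk x) = true) (h1 : flipc F φ σ x = 1) : φ x = 2 := by
  unfold flipc at h1
  rw [if_pos h] at h1
  split_ifs at h1 with h2 h3
  · exact absurd h1 (by decide)
  · exact absurd h1 (by decide)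
  · revert h2 h3; generalize φ x = a; revert a; decide

theorem flipc_proper (hφ : ∀ x y, F.Adj x y → φ x ≠ φ y)
    (σ : (Bg F φ).ConnectedComponent → Bool) (x y : V) (h : F.Adj x y) :
    flipc F φ σ x ≠ flipc F φ σ y := by
  by_cases hx : φ x = 0
  · have : φ y ≠ 0 := fun h' => hφ x y h (hx.trans h'.symm)
    intro h2
    have h3 := flipc_zero (σ := σ).mpr hx
    rw [h2] at h3
    exact this (flipc_zero.mp h3)
  · by_cases hy : φ y = 0
    · intro h2
      have h3 := flipc_zero (σ := σ).mpr hy
      rw [← h2] at h3
      exact hx (flipc_zero.mp h3)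
    · have hB : (Bg F φ).Adj x y := ⟨h, hx, hy⟩
      have hk : (Bg F φ).connectedComponentMk x = (Bg F φ).connectedComponentMk y :=
        SimpleGraph.ConnectedComponent.sound hB.reachable
      have hne := hφ x y h
      unfold flipc
      rw [if_neg hx, if_neg hy, hk]
      revert hx hy hne
      generalize φ x = a
      generalize φ y = b
      generalize σ ((Bg F φ).connectedComponentMk y) = t
      revert a b t
      decide

/-- the Kempe step: some vertex of `S` coloured `1` is reached from `s` -/
theorem kempe (hφ : ∀ x y, F.Adj x y → φ x ≠ φ y) (S : Set V)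
    (hS : ∀ ψ : F.Coloring (Fin 3), ∀ i, ∃ x ∈ S, ψ x = i) (s : V)
    (hs0 : φ s = 0) (hs1 : ∀ x ∈ S, φ x = 0 → x = s)
    (σ : (Bg F φ).ConnectedComponent → Bool) :
    ∃ x ∈ S, Rch F (flipc F φ σ) 0 1 Set.univ {s} x ∧ flipc F φ σ x = 1 := by
  classical
  by_contra hcon
  push Not at hcon
  set f := flipc F φ σ with hf
  have hfp : ∀ x y, F.Adj x y → f x ≠ f y := flipc_proper hφ σ
  have h01 : ∀ x, Rch F f 0 1 Set.univ {s} x → f x = 0 ∨ f x = 1 := by
    intro x hx
    cases hx with
    | base x hx =>
      rw [Set.mem_singleton_iff] at hx; subst hx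
      exact Or.inl (flipc_zero.mpr hs0)
    | step x y _ _ _ hc =>
      rcases hc with h | h
      · exact Or.inr h.2
      · exact Or.inl h.2
  have hcl : ∀ x y, Rch F f 0 1 Set.univ {s} x → F.Adj x y → (f y = 0 ∨ f y = 1) →
      Rch F f 0 1 Set.univ {s} y := by
    intro x y hx hxy hy
    refine Rch.step x y hx hxy (Set.mem_univ _) ?_
    have h1 := h01 x hx
    have h2 := hfp x y hxy
    rcases h1 with h1 | h1 <;> rcases hy with hy | hy
    · exact absurd (h1.trans hy.symm) h2
    · exact Or.inl ⟨h1, hy⟩
    · exact Or.inr ⟨h1, hy⟩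
    · exact absurd (h1.trans hy.symm) h2
  let ψ : V → Fin 3 := fun x =>
    if Rch F f 0 1 Set.univ {s} x then (if f x = 0 then 1 else 0) else f x
  have hψ : ∀ x y, F.Adj x y → ψ x ≠ ψ y := by
    intro x y hxy
    have hne := hfp x y hxy
    by_cases hx : Rch F f 0 1 Set.univ {s} x <;> by_cases hy : Rch F f 0 1 Set.univ {s} y
    · have h1 := h01 x hx
      have h2 := h01 y hy
      simp only [ψ, if_pos hx, if_pos hy]
      revert h1 h2 hne
      generalize f x = a; generalize f y = b; revert a b; decide
    · have h1 := h01 x hx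
      have h2 : ¬ (f y = 0 ∨ f y = 1) := fun h => hy (hcl x y hx hxy h)
      simp only [ψ, if_pos hx, if_neg hy]
      revert h1 h2 hne
      generalize f x = a; generalize f y = b; revert a b; decide
    · have h1 := h01 y hy
      have h2 : ¬ (f x = 0 ∨ f x = 1) := fun h => hx (hcl y x hy hxy.symm h)
      simp only [ψ, if_neg hx, if_pos hy]
      revert h1 h2 hne
      generalize f x = a; generalize f y = b; revert a b; decide
    · simp only [ψ, if_neg hx, if_neg hy]
      exact hne
  obtain ⟨x, hxS, hx0⟩ := hS (SimpleGraph.Coloring.mk ψ (fun {a b} h => hψ a b h)) 0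
  have hx0' : ψ x = 0 := hx0
  by_cases hx : Rch F f 0 1 Set.univ {s} x
  · have h1 := h01 x hx
    have h2 : f x = 1 := by
      simp only [ψ, if_pos hx] at hx0'
      split_ifs at hx0' with h
      · exact absurd hx0' (by decide)
      · exact h1.resolve_left h
    exact hcon x hxS hx h2
  · simp only [ψ, if_neg hx] at hx0'
    have := hs1 x hxS (flipc_zero.mp hx0')
    subst this
    exact hx (Rch.base x rfl)

end core

/-- contraction of the wild components -/
def Th (F : SimpleGraph V) (φ : V → Fin 3) (wild : V → Prop) : SimpleGraph V where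
  Adj x y := F.Adj x y ∧ ((φ x = 0 ∧ wild y) ∨ (wild x ∧ φ y = 0))
  symm := ⟨fun _ _ h => ⟨h.1.symm, h.2.symm.imp (fun h => ⟨h.2, h.1⟩) (fun h => ⟨h.2, h.1⟩)⟩⟩
  loopless := ⟨fun x h => F.loopless.irrefl x h.1⟩

/-- the quotient graph -/
def Fq (F : SimpleGraph V) (φ : V → Fin 3) (wild : V → Prop) :
    SimpleGraph (Th F φ wild).ConnectedComponent where
  Adj C D := C ≠ D ∧ ∃ x y, (Th F φ wild).connectedComponentMk x = C ∧
    (Th F φ wild).connectedComponentMk y = D ∧ F.Adj x y ∧ ¬ wild x ∧ ¬ wild y
  symm := ⟨fun _ _ h => by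
    obtain ⟨h1, x, y, hx, hy, hxy, hw, hw'⟩ := h
    exact ⟨h1.symm, y, x, hy, hx, hxy.symm, hw', hw⟩⟩
  loopless := ⟨fun x h => h.1 rfl⟩

open Classical in
/-- the main case of the rooted theorem -/
theorem rooted_core [Finite V] (F : SimpleGraph V) (φ : V → Fin 3)
    (hφ : ∀ x y, F.Adj x y → φ x ≠ φ y) (S : Set V)
    (hS : ∀ ψ : F.Coloring (Fin 3), ∀ i, ∃ x ∈ S, ψ x = i) (s : V) (hsS : s ∈ S)
    (hs0 : φ s = 0) (hs1 : ∀ x ∈ S, φ x = 0 → x = s) : Rooted3 F S := by
  have hK := kempe hφ S hS s hs0 hs1
  -- some component is reached on both sides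
  have hex : ∃ k : (Bg F φ).ConnectedComponent, ∀ b : Bool,
      ∃ σ : (Bg F φ).ConnectedComponent → Bool, σ k = b ∧ ∃ x ∈ S,
        (Bg F φ).connectedComponentMk x = k ∧ Rch F (flipc F φ σ) 0 1 Set.univ {s} x ∧
        flipc F φ σ x = 1 := by
    by_contra hcon
    push Not at hcon
    choose b hb using hcon
    obtain ⟨x, hxS, hx, hx1⟩ := hK b
    exact hb _ b rfl x hxS rfl hx hx1
  obtain ⟨k, hk⟩ := hex
  obtain ⟨σ0, hσ0, t0, ht0S, ht0k, ht0r, ht0c⟩ := hk false
  obtain ⟨σ1, hσ1, t1, ht1S, ht1k, ht1r, ht1c⟩ := hk true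
  have hφt0 : φ t0 = 1 := by
    rw [← flipc_false (σ := σ0) (x := t0) (by rw [ht0k]; exact hσ0)]; exact ht0c
  have hφt1 : φ t1 = 2 := flipc_true (σ := σ1) (x := t1) (by rw [ht1k]; exact hσ1) ht1c
  let κ := (Bg F φ).connectedComponentMk
  let wild : V → Prop := fun x => φ x ≠ 0 ∧ (Bg F φ).connectedComponentMk x ≠ k
  let π : V → (Th F φ wild).ConnectedComponent := (Th F φ wild).connectedComponentMk
  let γ : V → Fin 3 := fun x => if wild x then 0 else φ x
  have hγw : ∀ x, wild x → γ x = 0 := fun x h => by simp only [γ, if_pos h]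
  have hγn : ∀ x, ¬ wild x → γ x = φ x := fun x h => by simp only [γ, if_neg h]
  have hwild0 : ∀ x, φ x = 0 → ¬ wild x := fun x h h' => h'.1 h
  have hγadj : ∀ x y, (Th F φ wild).Adj x y → γ x = γ y := by
    intro x y h
    rcases h.2 with ⟨h1, h2⟩ | ⟨h1, h2⟩
    · rw [hγw y h2, hγn x (hwild0 x h1), h1]
    · rw [hγw x h1, hγn y (hwild0 y h2), h2]
  have hγreach : ∀ x y, (Th F φ wild).Reachable x y → γ x = γ y := by
    intro x y h
    obtain ⟨p⟩ := h
    induction p with
    | nil => rfl
    | cons h _ ih => exact (hγadj _ _ h).trans ih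
  let col : (Th F φ wild).ConnectedComponent → Fin 3 :=
    SimpleGraph.ConnectedComponent.lift γ (fun v w p _ => hγreach v w p.reachable)
  have hcolπ : ∀ x, col (π x) = γ x := fun x => rfl
  have hsw : ¬ wild s := hwild0 s hs0
  have ht0w : ¬ wild t0 := fun h => h.2 ht0k
  have ht1w : ¬ wild t1 := fun h => h.2 ht1k
  let r : Fin 3 → V := ![s, t0, t1]
  have hr0 : r 0 = s := rfl
  have hr1 : r 1 = t0 := rfl
  have hr2 : r 2 = t1 := rfl
  have hrw : ∀ i, ¬ wild (r i) := by
    intro i
    fin_cases i
    · exact hsw
    · exact ht0w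
    · exact ht1w
  have hrS : ∀ i, r i ∈ S := by
    intro i
    fin_cases i
    · exact hsS
    · exact ht0S
    · exact ht1S
  have hrφ : ∀ i, φ (r i) = i := by
    intro i
    fin_cases i
    · exact hs0
    · exact hφt0
    · exact hφt1
  have hcolr : ∀ i, col (π (r i)) = i := by
    intro i; rw [hcolπ, hγn _ (hrw i), hrφ]
  let R : Fin 3 → Set (Th F φ wild).ConnectedComponent := fun i => {π (r i)}
  let W : Set (Th F φ wild).ConnectedComponent := {C | ∀ i, C ≠ π (r i)}
  have hRcol : ∀ i, ∀ C ∈ R i, col C = i := by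
    intro i C hC
    have : C = π (r i) := hC
    rw [this]; exact hcolr i
  have hRW : ∀ i, Disjoint (R i) W := by
    intro i
    rw [Set.disjoint_left]
    intro C hC hCW
    exact hCW i hC
  -- adjacency in the quotient
  have hFq : ∀ x y, F.Adj x y → ¬ wild x → ¬ wild y → (Fq F φ wild).Adj (π x) (π y) := by
    intro x y hxy hx hy
    refine ⟨?_, x, y, rfl, rfl, hxy, hx, hy⟩
    intro h
    have h1 := hcolπ x
    rw [h, hcolπ, hγn _ hx, hγn _ hy] at h1
    exact hφ x y hxy h1.symm
  -- links 0 - a
  have hlink0 : ∀ (a : Fin 3) (σ : (Bg F φ).ConnectedComponent → Bool), a ≠ 0 →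
      (∀ x, ¬ wild x → flipc F φ σ x = 1 → φ x = a) →
      Rch F (flipc F φ σ) 0 1 Set.univ {s} (r a) →
      Lk (Fq F φ wild) col 0 a W (R 0) (R a) := by
    intro a σ ha hσ hreach
    have key : ∀ x, Rch F (flipc F φ σ) 0 1 Set.univ {s} x →
        Lk (Fq F φ wild) col 0 a W (R 0) (R a) ∨
        Rch (Fq F φ wild) col 0 a W (R 0) (π x) := by
      intro x hx
      induction hx with
      | base x hx =>
        right
        rw [Set.mem_singleton_iff] at hx; subst hx
        exact Rch.base _ rfl
      | step x y _ hxy _ hc ih =>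
        rcases ih with ih | ih
        · exact Or.inl ih
        · by_cases hxw : wild x
          · -- then φ y = 0
            have hy0 : φ y = 0 := by
              rcases hc with h | h
              · exact absurd (flipc_zero.mp h.1) hxw.1
              · exact flipc_zero.mp h.2
            have : π x = π y := SimpleGraph.ConnectedComponent.sound
              (SimpleGraph.Adj.reachable (⟨hxy, Or.inr ⟨hxw, hy0⟩⟩ : (Th F φ wild).Adj x y))
            right; rw [← this]; exact ih
          · by_cases hyw : wild y
            · have hx0 : φ x = 0 := by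
                rcases hc with h | h
                · exact flipc_zero.mp h.1
                · exact absurd (flipc_zero.mp h.2) hyw.1
              have : π x = π y := SimpleGraph.ConnectedComponent.sound
                (SimpleGraph.Adj.reachable (⟨hxy, Or.inl ⟨hx0, hyw⟩⟩ : (Th F φ wild).Adj x y))
              right; rw [← this]; exact ih
            · have hadj := hFq x y hxy hxw hyw
              have hcc : (col (π x) = 0 ∧ col (π y) = a) ∨ (col (π x) = a ∧ col (π y) = 0) := by
                rw [hcolπ, hcolπ, hγn _ hxw, hγn _ hyw]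
                rcases hc with h | h
                · exact Or.inl ⟨flipc_zero.mp h.1, hσ y hyw h.2⟩
                · exact Or.inr ⟨hσ x hxw h.1, flipc_zero.mp h.2⟩
              by_cases hyW : π y ∈ W
              · exact Or.inr (Rch.step _ _ ih hadj hyW hcc)
              · have : ∃ i, π y = π (r i) := by
                  by_contra hno
                  push Not at hno
                  exact hyW hno
                obtain ⟨i, hi⟩ := this
                have hci : col (π y) = i := by rw [hi]; exact hcolr i
                rcases hcc with h | h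
                · have hia : i = a := hci.symm.trans h.2
                  subst hia
                  left
                  exact ⟨π x, ih, h.1, π y, hi, hadj, h.2⟩
                · have hi0 : i = 0 := hci.symm.trans h.2
                  subst hi0
                  right
                  exact Rch.base _ hi
    rcases key (r a) hreach with h | h
    · exact h
    · exfalso
      rcases h.mem with h' | h'
      · have h2 := hRcol 0 _ h'
        rw [hcolr a] at h2
        exact ha h2
      · exact h' a rfl
  have hL01 : Lk (Fq F φ wild) col 0 1 W (R 0) (R 1) := by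
    refine hlink0 1 σ0 (by decide) ?_ ht0r
    intro x hxw hx1
    have hx0 : φ x ≠ 0 := by
      intro h; rw [flipc_zero.mpr h] at hx1; exact absurd hx1 (by decide)
    have hxk : (Bg F φ).connectedComponentMk x = k := by
      by_contra h; exact hxw ⟨hx0, h⟩
    rw [← flipc_false (σ := σ0) (x := x) (by rw [hxk]; exact hσ0)]; exact hx1
  have hL02 : Lk (Fq F φ wild) col 0 2 W (R 0) (R 2) := by
    refine hlink0 2 σ1 (by decide) ?_ ht1r
    intro x hxw hx1
    have hx0 : φ x ≠ 0 := by
      intro h; rw [flipc_zero.mpr h] at hx1; exact absurd hx1 (by decide)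
    have hxk : (Bg F φ).connectedComponentMk x = k := by
      by_contra h; exact hxw ⟨hx0, h⟩
    exact flipc_true (σ := σ1) (x := x) (by rw [hxk]; exact hσ1) hx1
  have hL12 : Lk (Fq F φ wild) col 1 2 W (R 1) (R 2) := by
    have hre : (Bg F φ).Reachable t0 t1 :=
      SimpleGraph.ConnectedComponent.exact (ht0k.trans ht1k.symm)
    have key : ∀ x, (Bg F φ).Reachable t0 x →
        Lk (Fq F φ wild) col 1 2 W (R 1) (R 2) ∨
        Rch (Fq F φ wild) col 1 2 W (R 1) (π x) := by
      intro x hx
      rw [SimpleGraph.reachable_iff_reflTransGen] at hx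
      induction hx with
      | refl => exact Or.inr (Rch.base _ rfl)
      | @tail x y hx hxy ih =>
        rcases ih with ih | ih
        · exact Or.inl ih
        · have hxk : (Bg F φ).connectedComponentMk x = k := by
            rw [← ht0k]
            apply SimpleGraph.ConnectedComponent.sound
            exact ((SimpleGraph.reachable_iff_reflTransGen _ _).mpr hx).symm
          have hyk : (Bg F φ).connectedComponentMk y = k := by
            rw [← hxk]
            exact (SimpleGraph.ConnectedComponent.sound hxy.reachable).symm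
          have hxw : ¬ wild x := fun h => h.2 hxk
          have hyw : ¬ wild y := fun h => h.2 hyk
          have hadj := hFq x y hxy.1 hxw hyw
          have hcc : (col (π x) = 1 ∧ col (π y) = 2) ∨ (col (π x) = 2 ∧ col (π y) = 1) := by
            rw [hcolπ, hcolπ, hγn _ hxw, hγn _ hyw]
            have h1 := hxy.2.1
            have h2 := hxy.2.2
            have h3 := hφ x y hxy.1
            revert h1 h2 h3
            generalize φ x = a; generalize φ y = b; revert a b; decide
          by_cases hyW : π y ∈ W
          · exact Or.inr (Rch.step _ _ ih hadj hyW hcc)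
          · have : ∃ i, π y = π (r i) := by
              by_contra hno
              push Not at hno
              exact hyW hno
            obtain ⟨i, hi⟩ := this
            have hci : col (π y) = i := by rw [hi]; exact hcolr i
            rcases hcc with h | h
            · have hia : i = 2 := hci.symm.trans h.2
              subst hia
              left
              exact ⟨π x, ih, h.1, π y, hi, hadj, h.2⟩
            · have hi0 : i = 1 := hci.symm.trans h.2
              subst hi0
              right
              exact Rch.base _ hi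
    rcases key t1 hre with h | h
    · exact h
    · exfalso
      rcases h.mem with h' | h'
      · have h2 := hRcol 1 _ h'
        have h3 := hcolr 2
        rw [hr2, h2] at h3
        exact absurd h3 (by decide)
      · exact h' 2 rfl
  have hL : ∀ i j, i ≠ j → Lk (Fq F φ wild) col i j W (R i) (R j) := by
    intro i j hij
    fin_cases i <;> fin_cases j
    · exact absurd rfl hij
    · exact hL01
    · exact hL02
    · exact hL01.symm (by decide) (hRcol 0)
    · exact absurd rfl hij
    · exact hL12
    · exact hL02.symm (by decide) (hRcol 0)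
    · exact hL12.symm (by decide) (hRcol 1)
    · exact absurd rfl hij
  obtain ⟨c', Y, hYW, hYd, hcR, hYc, hcr⟩ := k3 (Fq F φ wild) col W R hRcol hRW hL
  let c : V → Bool := fun x => if wild x then !(c' (π x)) else c' (π x)
  have hcw : ∀ x, wild x → c x = !(c' (π x)) := fun x h => by simp only [c, if_pos h]
  have hcn : ∀ x, ¬ wild x → c x = c' (π x) := fun x h => by simp only [c, if_neg h]
  let X : Fin 3 → Set V := fun i => {x | π x ∈ R i ∪ Y i}
  have hrX : ∀ i, r i ∈ X i := fun i => Or.inl rfl
  have hΘ : ∀ i x y, (Th F φ wild).Reachable x y → Con F c (X i) {r i} x → x ∈ X i →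
      Con F c (X i) {r i} y := by
    intro i x y h
    obtain ⟨p⟩ := h
    induction p with
    | nil => intro h _; exact h
    | @cons x y z hxy _ ih =>
      intro hx hxX
      have hπ : π x = π y := SimpleGraph.ConnectedComponent.sound hxy.reachable
      have hyX : y ∈ X i := by
        show π y ∈ R i ∪ Y i
        rw [← hπ]; exact hxX
      refine ih (Con.step x y hx hxy.1 hyX ?_) hyX
      rcases hxy.2 with ⟨h1, h2⟩ | ⟨h1, h2⟩
      · rw [hcn x (hwild0 x h1), hcw y h2, hπ]; cases c' (π y) <;> decide
      · rw [hcn y (hwild0 y h2), hcw x h1, hπ]; cases c' (π y) <;> decide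
  have hconq : ∀ i C, Con (Fq F φ wild) c' (Y i) (R i) C → C ∈ R i ∪ Y i →
      ∀ x, π x = C → Con F c (X i) {r i} x := by
    intro i C hC
    induction hC with
    | base C hC =>
      intro _ x hx
      have hC' : C = π (r i) := hC
      refine hΘ i (r i) x ?_ (Con.base _ rfl) (hrX i)
      exact SimpleGraph.ConnectedComponent.exact (hC'.symm.trans hx.symm)
    | step C D hC hCD hD hcc ih =>
      intro _ x hx
      have hCm : C ∈ R i ∪ Y i := by
        cases hC with
        | base C hC => exact Or.inl hC
        | step _ _ _ _ h _ => exact Or.inr h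
      obtain ⟨_, a, b, ha, hb, hab, haw, hbw⟩ := hCD
      have hca := ih hCm a ha
      have hbX : b ∈ X i := by
        show π b ∈ R i ∪ Y i
        have : π b = D := hb
        rw [this]; exact Or.inr hD
      have hcb : Con F c (X i) {r i} b := by
        refine Con.step a b hca hab hbX ?_
        rw [hcn a haw, hcn b hbw]
        have h1 : π a = C := ha
        have h2 : π b = D := hb
        rw [h1, h2]; exact hcc
      refine hΘ i b x ?_ hcb hbX
      have h2 : π b = D := hb
      exact SimpleGraph.ConnectedComponent.exact (h2.trans hx.symm)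
  refine ⟨c, X, r, ?_, ?_, ?_, ?_⟩
  · intro i
    refine ⟨hrS i, ?_, hrX i⟩
    rw [hcn _ (hrw i)]
    exact hcR i _ rfl
  · intro i x hx
    rcases hx with h | h
    · exact hconq i (π x) (Con.base _ h) (Or.inl h) x rfl
    · exact hconq i (π x) (hYc i _ h) (Or.inr h) x rfl
  · intro i j hij
    rw [Set.disjoint_left]
    intro x hx hy
    rcases hx with h | h <;> rcases hy with h' | h'
    · exact hij ((hRcol i _ h).symm.trans (hRcol j _ h'))
    · exact (Set.disjoint_left.mp (hRW i)) h (hYW j h')
    · exact (Set.disjoint_left.mp (hRW j)) h' (hYW i h)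
    · exact (Set.disjoint_left.mp (hYd i j hij)) h h'
  · intro i j hij
    obtain ⟨C, hC, D, hD, hCD, hcc⟩ := hcr i j hij
    obtain ⟨_, a, b, ha, hb, hab, haw, hbw⟩ := hCD
    have h1 : π a = C := ha
    have h2 : π b = D := hb
    refine ⟨a, ?_, b, ?_, hab, ?_⟩
    · show π a ∈ R i ∪ Y i
      rw [h1]; exact hC
    · show π b ∈ R j ∪ Y j
      rw [h2]; exact hD
    · rw [hcn a haw, hcn b hbw, h1, h2]; exact hcc

/-- **Rooted version of Catlin's theorem.** If `F` is 3-colourable and every 3-colouring of `F`
uses all three colours on `S`, then `F` has an odd-K3 rooted at `S`. -/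
theorem rooted3 [Finite V] (F : SimpleGraph V) (h3 : F.Colorable 3) (S : Set V) :
    (∀ ψ : F.Coloring (Fin 3), ∀ i, ∃ x ∈ S, ψ x = i) → Rooted3 F S := by
  induction S using WellFoundedLT.induction with
  | ind S IH =>
    intro hS
    obtain ⟨χ⟩ := h3
    obtain ⟨s, hsS, -⟩ := hS χ 0
    by_cases h : ∀ ψ : F.Coloring (Fin 3), ∀ i, ∃ x ∈ S \ {s}, ψ x = i
    · refine (IH (S \ {s}) ?_ h).mono Set.sdiff_subset
      exact ⟨Set.sdiff_subset, fun h' => (h' hsS).2 rfl⟩
    · push Not at h
      obtain ⟨ψ, a, ha⟩ := h
      have hsa : ψ s = a := by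
        obtain ⟨x, hx, hxa⟩ := hS ψ a
        by_cases hxs : x = s
        · rw [← hxs]; exact hxa
        · exact absurd hxa (ha x ⟨hx, hxs⟩)
      let φ : V → Fin 3 := fun x => Equiv.swap a 0 (ψ x)
      refine rooted_core F φ ?_ S hS s hsS ?_ ?_
      · intro x y hxy h
        exact ψ.valid hxy ((Equiv.swap a 0).injective h)
      · show Equiv.swap a 0 (ψ s) = 0
        rw [hsa]; exact Equiv.swap_apply_left a 0
      · intro x hx hx0
        by_contra hxs
        apply ha x ⟨hx, hxs⟩
        have : Equiv.swap a 0 (ψ x) = Equiv.swap a 0 a := by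
          rw [Equiv.swap_apply_left]; exact hx0
        exact (Equiv.swap a 0).injective this

end Run7.h886
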