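import Mathlib
import Pool.Agent.Run7.h886.Rooted

set_option autoImplicit false

namespace Run7.h886

variable {V : Type*}

/-- `G` contains an odd-`K_n` as a subgraph. -/
def HasOddK (n : ℕ) (G : SimpleGraph V) : Prop :=
  ∃ (f : Fin n → Set V) (T : Fin n → SimpleGraph V) (e : Fin n → Fin n → V) (c : V → Bool),
    (∀ i j, i ≠ j → Disjoint (f i) (f j)) ∧
    (∀ i, T i ≤ G) ∧
    (∀ i u v, (T i).Adj u v → u ∈ f i ∧ v ∈ f i ∧ c u ≠ c v) ∧
    (∀ i, ((T i).induce (f i)).IsTree) ∧
    (∀ i j, i ≠ j → e i j ∈ f i ∧ G.Adj (e i j) (e j i) ∧ c (e i j) = c (e j i))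

/-- a spanning tree with bichromatic edges -/
theorem tree_of_con [Finite V] (F : SimpleGraph V) (c : V → Bool) (X : Set V) (r : V)
    (hr : r ∈ X) (h : ∀ x ∈ X, Con F c X {r} x) :
    ∃ T : SimpleGraph V, T ≤ F ∧ (∀ u v, T.Adj u v → u ∈ X ∧ v ∈ X ∧ c u ≠ c v) ∧
      (T.induce X).IsTree := by
  classical
  let H : SimpleGraph X :=
    { Adj := fun u v => F.Adj u v ∧ c u ≠ c v
      symm := ⟨fun _ _ h => ⟨h.1.symm, h.2.symm⟩⟩
      loopless := ⟨fun x h => F.loopless.irrefl _ h.1⟩ }
  have hreach : ∀ x, Con F c X {r} x → ∀ hx : x ∈ X, H.Reachable ⟨r, hr⟩ ⟨x, hx⟩ := by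
    intro x hx
    induction hx with
    | base x hx =>
      intro hxX
      rw [Set.mem_singleton_iff] at hx; subst hx
      exact SimpleGraph.Reachable.refl _
    | step x y hx hxy hy hc ih =>
      intro _
      have hxX : x ∈ X := by
        cases hx with
        | base x hx => rw [Set.mem_singleton_iff] at hx; subst hx; exact hr
        | step _ _ _ _ h _ => exact h
      refine (ih hxX).trans ?_
      exact SimpleGraph.Adj.reachable (⟨hxy, hc⟩ : H.Adj ⟨x, hxX⟩ ⟨y, hy⟩)
  have hconn : H.Connected := by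
    have : Nonempty X := ⟨⟨r, hr⟩⟩
    refine ⟨fun u v => ?_⟩
    exact (hreach u (h u u.2) u.2).symm.trans (hreach v (h v v.2) v.2)
  obtain ⟨T', hT', htree⟩ := hconn.exists_isTree_le
  let T : SimpleGraph V :=
    { Adj := fun u v => ∃ (hu : u ∈ X) (hv : v ∈ X), T'.Adj ⟨u, hu⟩ ⟨v, hv⟩
      symm := ⟨fun _ _ h => by obtain ⟨hu, hv, h⟩ := h; exact ⟨hv, hu, h.symm⟩⟩
      loopless := ⟨fun x h => by obtain ⟨hu, hv, h⟩ := h; exact T'.loopless.irrefl _ h⟩ }
  refine ⟨T, ?_, ?_, ?_⟩
  · intro u v h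
    obtain ⟨hu, hv, h⟩ := h
    exact (hT' h).1
  · intro u v h
    obtain ⟨hu, hv, h⟩ := h
    exact ⟨hu, hv, (hT' h).2⟩
  · have : T.induce X = T' := by
      ext u v
      constructor
      · intro h
        obtain ⟨hu, hv, h⟩ := h
        exact h
      · intro h
        exact ⟨u.2, v.2, h⟩
    rw [this]; exact htree

/-- building an odd-`K_n` from connected sets -/
theorem hasOddK_of [Finite V] (n : ℕ) (G : SimpleGraph V) (c : V → Bool) (X : Fin n → Set V)
    (r : Fin n → V) (hr : ∀ i, r i ∈ X i) (hcon : ∀ i, ∀ x ∈ X i, Con G c (X i) {r i} x)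
    (hdis : ∀ i j, i ≠ j → Disjoint (X i) (X j))
    (hcross : ∀ i j, i < j → ∃ x ∈ X i, ∃ y ∈ X j, G.Adj x y ∧ c x = c y) :
    HasOddK n G := by
  classical
  choose T hT1 hT2 hT3 using fun i => tree_of_con G c (X i) (r i) (hr i) (hcon i)
  choose a ha b hb hab hc using hcross
  refine ⟨X, T, fun i j => if h : i < j then a i j h else if h : j < i then b j i h else r i,
    c, hdis, hT1, hT2, hT3, ?_⟩
  intro i j hij
  rcases lt_or_gt_of_ne hij with h | h
  · have h' : ¬ j < i := not_lt.mpr h.le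
    simp only [dif_pos h, dif_neg h']
    exact ⟨ha i j h, hab i j h, hc i j h⟩
  · have h' : ¬ i < j := not_lt.mpr h.le
    simp only [dif_pos h, dif_neg h']
    exact ⟨hb j i h, (hab j i h).symm, (hc j i h).symm⟩

theorem Con.lift_graph {F G : SimpleGraph V} (h : F ≤ G) {c : V → Bool} {Y S : Set V} {x : V}
    (hx : Con F c Y S x) : Con G c Y S x := by
  induction hx with
  | base x hx => exact Con.base x hx
  | step x y _ hxy hy hc ih => exact Con.step x y ih (h hxy) hy hc

/-- the graph `G` with the vertices of `U` isolated -/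
def del (G : SimpleGraph V) (U : Set V) : SimpleGraph V where
  Adj x y := G.Adj x y ∧ x ∉ U ∧ y ∉ U
  symm := ⟨fun _ _ h => ⟨h.1.symm, h.2.2, h.2.1⟩⟩
  loopless := ⟨fun x h => G.loopless.irrefl x h.1⟩

theorem del_le (G : SimpleGraph V) (U : Set V) : del G U ≤ G := fun _ _ h => h.1

theorem del_colorable (G : SimpleGraph V) (U : Set V) (n : ℕ) [NeZero n]
    (h : (G.induce (Uᶜ : Set V)).Colorable n) : (del G U).Colorable n := by
  classical
  obtain ⟨χ⟩ := h
  refine ⟨SimpleGraph.Coloring.mk (fun x => if hx : x ∈ Uᶜ then χ ⟨x, hx⟩ else 0) ?_⟩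
  intro x y hxy
  have hx : x ∈ Uᶜ := hxy.2.1
  have hy : y ∈ Uᶜ := hxy.2.2
  simp only [dif_pos hx, dif_pos hy]
  exact χ.valid (show (G.induce (Uᶜ : Set V)).Adj ⟨x, hx⟩ ⟨y, hy⟩ from hxy.1)

/-- vertices of a branch set avoid the isolated vertices -/
theorem rooted_avoid {G : SimpleGraph V} {U S : Set V} (hSU : ∀ x ∈ S, x ∉ U)
    {c : V → Bool} {X : Set V} {r : V} (hr : r ∈ S)
    {x : V} (hx : Con (del G U) c X {r} x) : x ∉ U := by
  cases hx with
  | base x hx => rw [Set.mem_singleton_iff] at hx; subst hx; exact hSU _ hr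
  | step _ _ _ h _ _ => exact h.2.2

/-- **Theorem B.** If deleting two vertices makes `G` 3-colourable and `G` contains no odd-K5,
then `G` is 4-colourable. -/
theorem two_del [Finite V] (G : SimpleGraph V) (u v : V)
    (h3 : (G.induce (({u, v} : Set V)ᶜ : Set V)).Colorable 3) (hK : ¬ HasOddK 5 G) :
    G.Colorable 4 := by
  classical
  by_contra h4
  have h3' := del_colorable G {u, v} 3 h3
  set F := del G {u, v} with hF
  obtain ⟨χ⟩ := h3'
  -- lifting 3-colourings of F to 4-colourings of G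
  have hcs : ∀ i : Fin 3, (Fin.castSucc i : Fin 4) ≠ 3 := by decide
  have hinj : Function.Injective (Fin.castSucc : Fin 3 → Fin 4) := Fin.castSucc_injective 3
  have huv : G.Adj u v := by
    by_contra huv
    apply h4
    let ψ : V → Fin 4 := fun x => if x = u ∨ x = v then 3 else Fin.castSucc (χ x)
    refine ⟨SimpleGraph.Coloring.mk ψ ?_⟩
    intro x y hxy
    by_cases hx : x = u ∨ x = v <;> by_cases hy : y = u ∨ y = v
    · exfalso
      rcases hx with rfl | rfl <;> rcases hy with rfl | rfl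
      · exact G.loopless.irrefl _ hxy
      · exact huv hxy
      · exact huv hxy.symm
      · exact G.loopless.irrefl _ hxy
    · simp only [ψ, if_pos hx, if_neg hy]; exact (hcs _).symm
    · simp only [ψ, if_neg hx, if_pos hy]; exact hcs _
    · simp only [ψ, if_neg hx, if_neg hy]
      intro h
      refine χ.valid (show F.Adj x y from ⟨hxy, ?_, ?_⟩) (hinj h)
      · simpa using hx
      · simpa using hy
  have huvne : u ≠ v := huv.ne
  let S : Set V := {x | G.Adj u x ∧ G.Adj v x}
  have hSU : ∀ x ∈ S, x ∉ ({u, v} : Set V) := by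
    intro x hx h
    rcases h with h | h
    · subst h; exact G.loopless.irrefl _ hx.1
    · rw [Set.mem_singleton_iff] at h; subst h; exact G.loopless.irrefl _ hx.2
  have hS : ∀ ψ : F.Coloring (Fin 3), ∀ i, ∃ x ∈ S, ψ x = i := by
    intro φ i
    by_contra hcon
    push Not at hcon
    apply h4
    -- v gets i, the i-neighbours of v get 3, u gets 3
    let ψ : V → Fin 4 := fun x => if x = u then 3 else if x = v then Fin.castSucc i else
      if G.Adj v x ∧ φ x = i then 3 else Fin.castSucc (φ x)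
    have hu : ψ u = 3 := by simp [ψ]
    have hv : ψ v = Fin.castSucc i := by simp [ψ, huvne.symm]
    have ho1 : ∀ x, x ≠ u → x ≠ v → (G.Adj v x ∧ φ x = i) → ψ x = 3 := by
      intro x h1 h2 h3; simp only [ψ, if_neg h1, if_neg h2, if_pos h3]
    have ho2 : ∀ x, x ≠ u → x ≠ v → ¬ (G.Adj v x ∧ φ x = i) → ψ x = Fin.castSucc (φ x) := by
      intro x h1 h2 h3; simp only [ψ, if_neg h1, if_neg h2, if_neg h3]
    have hux : ∀ x, G.Adj u x → ψ x ≠ 3 := by
      intro x hx
      have h1 : x ≠ u := fun h => by subst h; exact G.loopless.irrefl _ hx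
      by_cases h2 : x = v
      · rw [h2, hv]; exact hcs _
      · by_cases h3 : G.Adj v x ∧ φ x = i
        · exact absurd h3.2 (hcon x ⟨hx, h3.1⟩)
        · rw [ho2 x h1 h2 h3]; exact hcs _
    have hvx : ∀ x, x ≠ u → G.Adj v x → ψ x ≠ Fin.castSucc i := by
      intro x h1 hx
      have h2 : x ≠ v := fun h => by subst h; exact G.loopless.irrefl _ hx
      by_cases h3 : G.Adj v x ∧ φ x = i
      · rw [ho1 x h1 h2 h3]; exact (hcs _).symm
      · rw [ho2 x h1 h2 h3]; intro h; exact h3 ⟨hx, hinj h⟩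
    refine ⟨SimpleGraph.Coloring.mk ψ ?_⟩
    intro x y hxy
    by_cases hxu : x = u
    · subst hxu; rw [hu]; exact (hux y hxy).symm
    by_cases hyu : y = u
    · subst hyu; rw [hu]; exact hux x hxy.symm
    by_cases hxv : x = v
    · subst hxv; rw [hv]; exact (hvx y hyu hxy).symm
    by_cases hyv : y = v
    · subst hyv; rw [hv]; exact hvx x hxu hxy.symm
    have hFxy : F.Adj x y := ⟨hxy, by simp [hxu, hxv], by simp [hyu, hyv]⟩
    have hne := φ.valid hFxy
    by_cases hx : G.Adj v x ∧ φ x = i <;> by_cases hy : G.Adj v y ∧ φ y = i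
    · exact absurd (hx.2.trans hy.2.symm) hne
    · rw [ho1 x hxu hxv hx, ho2 y hyu hyv hy]; exact (hcs _).symm
    · rw [ho2 x hxu hxv hx, ho1 y hyu hyv hy]; exact hcs _
    · rw [ho2 x hxu hxv hx, ho2 y hyu hyv hy]; exact fun h => hne (hinj h)
  obtain ⟨c, X, r, h1, h2, h3, h4'⟩ := rooted3 F ⟨χ⟩ S hS
  apply hK
  have hXU : ∀ i, ∀ x ∈ X i, x ≠ u ∧ x ≠ v := by
    intro i x hx
    have := rooted_avoid hSU (h1 i).1 (h2 i x hx)
    constructor
    · intro h; exact this (Or.inl h)
    · intro h; exact this (Or.inr h)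
  let c' : V → Bool := fun x => if x = u ∨ x = v then false else c x
  have hc'u : c' u = false := by simp [c']
  have hc'v : c' v = false := by simp [c']
  have hc'x : ∀ i, ∀ x ∈ X i, c x = c' x := by
    intro i x hx
    have := hXU i x hx
    simp [c', this.1, this.2]
  let Z : Fin 5 → Set V := ![{u}, {v}, X 0, X 1, X 2]
  let ρ : Fin 5 → V := ![u, v, r 0, r 1, r 2]
  have hconX : ∀ i, ∀ x ∈ X i, Con G c' (X i) {r i} x := by
    intro i x hx
    refine ((h2 i x hx).lift_graph (del_le G _)).congr ?_ |>.1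
    intro z hz
    rcases hz with h | h
    · rw [Set.mem_singleton_iff] at h; subst h; exact hc'x i _ (h1 i).2.2
    · exact hc'x i z h
  have hsing : ∀ a x : V, x ∈ ({a} : Set V) → Con G c' {a} {a} x := fun a x hx => Con.base x hx
  have hrc : ∀ i, c' (r i) = false := fun i => by rw [← hc'x i _ (h1 i).2.2]; exact (h1 i).2.1
  have hdu : ∀ i, Disjoint ({u} : Set V) (X i) := by
    intro i; rw [Set.disjoint_left]; intro x hx hx'
    rw [Set.mem_singleton_iff] at hx; exact (hXU i x hx').1 hx
  have hdv : ∀ i, Disjoint ({v} : Set V) (X i) := by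
    intro i; rw [Set.disjoint_left]; intro x hx hx'
    rw [Set.mem_singleton_iff] at hx; exact (hXU i x hx').2 hx
  have hduv : Disjoint ({u} : Set V) {v} := by
    rw [Set.disjoint_singleton]; exact huvne
  have hcu : ∀ i, ∃ x ∈ ({u} : Set V), ∃ y ∈ X i, G.Adj x y ∧ c' x = c' y := fun i =>
    ⟨u, rfl, r i, (h1 i).2.2, (h1 i).1.1, by rw [hc'u, hrc]⟩
  have hcv : ∀ i, ∃ x ∈ ({v} : Set V), ∃ y ∈ X i, G.Adj x y ∧ c' x = c' y := fun i =>
    ⟨v, rfl, r i, (h1 i).2.2, (h1 i).1.2, by rw [hc'v, hrc]⟩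
  have hcX : ∀ i j, i ≠ j → ∃ x ∈ X i, ∃ y ∈ X j, G.Adj x y ∧ c' x = c' y := by
    intro i j hij
    obtain ⟨x, hx, y, hy, hxy, hcc⟩ := h4' i j hij
    exact ⟨x, hx, y, hy, hxy.1, by rw [← hc'x i x hx, ← hc'x j y hy]; exact hcc⟩
  refine hasOddK_of 5 G c' Z ρ ?_ ?_ ?_ ?_
  · intro i
    fin_cases i
    · exact rfl
    · exact rfl
    · exact (h1 0).2.2
    · exact (h1 1).2.2
    · exact (h1 2).2.2
  · intro i
    fin_cases i
    · exact hsing u
    · exact hsing v
    · exact hconX 0
    · exact hconX 1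
    · exact hconX 2
  · intro i j hij
    fin_cases i <;> fin_cases j
    · exact absurd rfl hij
    · exact hduv
    · exact hdu 0
    · exact hdu 1
    · exact hdu 2
    · exact hduv.symm
    · exact absurd rfl hij
    · exact hdv 0
    · exact hdv 1
    · exact hdv 2
    · exact (hdu 0).symm
    · exact (hdv 0).symm
    · exact absurd rfl hij
    · exact h3 0 1 (by decide)
    · exact h3 0 2 (by decide)
    · exact (hdu 1).symm
    · exact (hdv 1).symm
    · exact h3 1 0 (by decide)
    · exact absurd rfl hij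
    · exact h3 1 2 (by decide)
    · exact (hdu 2).symm
    · exact (hdv 2).symm
    · exact h3 2 0 (by decide)
    · exact h3 2 1 (by decide)
    · exact absurd rfl hij
  · intro i j hij
    fin_cases i <;> fin_cases j
    · exact absurd hij (by decide)
    · exact ⟨u, rfl, v, rfl, huv, by rw [hc'u, hc'v]⟩
    · exact hcu 0
    · exact hcu 1
    · exact hcu 2
    · exact absurd hij (by decide)
    · exact absurd hij (by decide)
    · exact hcv 0
    · exact hcv 1
    · exact hcv 2
    · exact absurd hij (by decide)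
    · exact absurd hij (by decide)
    · exact absurd hij (by decide)
    · exact hcX 0 1 (by decide)
    · exact hcX 0 2 (by decide)
    · exact absurd hij (by decide)
    · exact absurd hij (by decide)
    · exact absurd hij (by decide)
    · exact absurd hij (by decide)
    · exact hcX 1 2 (by decide)
    · exact absurd hij (by decide)
    · exact absurd hij (by decide)
    · exact absurd hij (by decide)
    · exact absurd hij (by decide)
    · exact absurd hij (by decide)

end Run7.h886
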