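import Mathlib
import Pool.Agent.Run7.h886.Build

set_option autoImplicit false

namespace Run7.h886

variable {V : Type*}

/-- a chain in colours `i, j` between two given vertices -/
theorem lk_of_conn (G : SimpleGraph V) (C : V → Fin 5) (col : V → Fin 3) (W : Set V)
    (F : SimpleGraph V) (p q : Fin 5) (i j : Fin 3)
    (hpq : p ≠ q)
    (hconn : (G.induce {x | C x = p ∨ C x = q}).Connected)
    (hprop : ∀ x y, G.Adj x y → C x ≠ C y)
    (hF : ∀ x y, (C x = p ∨ C x = q) → (C y = p ∨ C y = q) → G.Adj x y → F.Adj x y)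
    (hp : ∀ x, C x = p → col x = i) (hq : ∀ x, C x = q → col x = j)
    (r s : V) (hr : C r = p) (hs : C s = q)
    (hW : ∀ x, (C x = p ∨ C x = q) → x ≠ r → x ≠ s → x ∈ W) (hsW : s ∉ W) :
    Lk F col i j W {r} {s} := by
  classical
  have key : ∀ (x y : {x | C x = p ∨ C x = q}), (G.induce {x | C x = p ∨ C x = q}).Walk x y →
      (Rch F col i j W {r} x ∨ Lk F col i j W {r} {s}) →
      (Rch F col i j W {r} y ∨ Lk F col i j W {r} {s}) := by
    intro x y w
    induction w with
    | nil => exact id
    | @cons x z y hxz w ih =>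
      intro hx
      apply ih
      rcases hx with hx | hx
      · have hadj : G.Adj x z := hxz
        have hFa : F.Adj x z := hF x z x.2 z.2 hadj
        have hne : C x ≠ C z := hprop x z hadj
        by_cases hzs : (z : V) = s
        · right
          have hxp : C x = p := by
            rcases x.2 with h | h
            · exact h
            · exact absurd (h.trans (hs.symm.trans (by rw [hzs]))) hne
          exact ⟨x, hx, hp x hxp, s, rfl, hzs ▸ hFa, hq s hs⟩
        · left
          by_cases hzr : (z : V) = r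
          · exact Rch.base _ hzr
          · refine Rch.step (x : V) (z : V) hx hFa (hW (z : V) z.2 hzr hzs) ?_
            rcases x.2 with h | h <;> rcases z.2 with h' | h'
            · exact absurd (h.trans h'.symm) hne
            · exact Or.inl ⟨hp x h, hq z h'⟩
            · exact Or.inr ⟨hq x h, hp z h'⟩
            · exact absurd (h.trans h'.symm) hne
      · exact Or.inr hx
  obtain ⟨w⟩ := hconn.preconnected ⟨r, Or.inl hr⟩ ⟨s, Or.inr hs⟩
  rcases key _ _ w (Or.inl (Rch.base r rfl)) with h | h
  · exfalso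
    rcases h.mem with h' | h'
    · rw [Set.mem_singleton_iff] at h'
      have h'' : s = r := h'
      rw [h'', hr] at hs; exact hpq hs
    · exact hsW h'
  · exact h

/-- connectivity of a bipartite piece, expressed by `Con` -/
theorem con_of_connected (G : SimpleGraph V) (M : Set V) (p : M)
    (hconn : ((G.induce M).induce ({p}ᶜ : Set M)).Connected) (c : V → Bool)
    (hc : ∀ x ∈ M, ∀ y ∈ M, x ≠ p → y ≠ p → G.Adj x y → c x ≠ c y)
    (m : V) (hm : m ∈ M) (hmp : m ≠ p) :
    ∀ x ∈ M \ {(p : V)}, Con G c (M \ {(p : V)}) {m} x := by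
  have key : ∀ (x y : ({p}ᶜ : Set M)), ((G.induce M).induce ({p}ᶜ : Set M)).Walk x y →
      Con G c (M \ {(p : V)}) {m} x → Con G c (M \ {(p : V)}) {m} y := by
    intro x y w
    induction w with
    | nil => exact id
    | @cons x z y hxz w ih =>
      intro hx
      apply ih
      have hadj : G.Adj (x : M) (z : M) := hxz
      have hxp : ((x : M) : V) ≠ p := fun h => x.2 (Subtype.ext h)
      have hzp : ((z : M) : V) ≠ p := fun h => z.2 (Subtype.ext h)
      exact Con.step _ _ hx hadj ⟨(z : M).2, hzp⟩ (hc _ (x : M).2 _ (z : M).2 hxp hzp hadj)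
  intro x hx
  have hxp : (⟨x, hx.1⟩ : M) ∈ ({p}ᶜ : Set M) := fun h => hx.2 (by
    rw [Set.mem_singleton_iff] at h ⊢; exact congrArg Subtype.val h)
  have hmp' : (⟨m, hm⟩ : M) ∈ ({p}ᶜ : Set M) := fun h => hmp (by
    rw [Set.mem_singleton_iff] at h; exact congrArg Subtype.val h)
  obtain ⟨w⟩ := hconn.preconnected ⟨⟨m, hm⟩, hmp'⟩ ⟨⟨x, hx.1⟩, hxp⟩
  exact key _ _ w (Con.base m rfl)

/-- If a proper 5-colouring has every vertex adjacent to all four other classes and the pairs
`01, 02, 12, 34` of classes induce connected graphs, then there is an odd-`K_5`. -/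
theorem frozen5 [Finite V] (G : SimpleGraph V) (C : V → Fin 5)
    (hprop : ∀ x y, G.Adj x y → C x ≠ C y)
    (hfall : ∀ x i, i ≠ C x → ∃ y, G.Adj x y ∧ C y = i)
    (h01 : (G.induce {x | C x = 0 ∨ C x = 1}).Connected)
    (h02 : (G.induce {x | C x = 0 ∨ C x = 2}).Connected)
    (h12 : (G.induce {x | C x = 1 ∨ C x = 2}).Connected)
    (h34 : (G.induce {x | C x = 3 ∨ C x = 4}).Connected) : HasOddK 5 G := by
  classical
  set M : Set V := {x | C x = 3 ∨ C x = 4} with hM
  -- the two classes 3 and 4 are nonempty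
  have hnt : Nontrivial M := by
    obtain ⟨⟨x, hx⟩⟩ := h34.nonempty
    rcases hx with hx | hx
    · obtain ⟨y, hxy, hy⟩ := hfall x 4 (by rw [hx]; decide)
      exact ⟨⟨x, Or.inl hx⟩, ⟨y, Or.inr hy⟩, fun h => hxy.ne (congrArg Subtype.val h)⟩
    · obtain ⟨y, hxy, hy⟩ := hfall x 3 (by rw [hx]; decide)
      exact ⟨⟨x, Or.inr hx⟩, ⟨y, Or.inl hy⟩, fun h => hxy.ne (congrArg Subtype.val h)⟩
  obtain ⟨p, hp⟩ := h34.exists_connected_induce_compl_singleton_of_finite_nontrivial
  obtain ⟨q, hqM, hqp⟩ : ∃ q : Fin 5, (q = 3 ∨ q = 4) ∧ q ≠ C p := by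
    rcases p.2 with h | h
    · exact ⟨4, Or.inr rfl, by rw [h]; decide⟩
    · exact ⟨3, Or.inl rfl, by rw [h]; decide⟩
  obtain ⟨m, hpm, hm⟩ := hfall p q hqp
  have hmM : m ∈ M := by rcases hqM with h | h; exact Or.inl (hm.trans h); exact Or.inr (hm.trans h)
  let e : Fin 3 → Fin 5 := ![0, 1, 2]
  have heM : ∀ i, e i ≠ 3 ∧ e i ≠ 4 := by decide
  have hep : ∀ i, e i ≠ C p := by
    intro i; rcases p.2 with h | h
    · rw [h]; exact (heM i).1
    · rw [h]; exact (heM i).2
  choose r hpr hr using fun i => hfall p (e i) (hep i)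
  have heinj : ∀ i j, i ≠ j → e i ≠ e j := by decide
  have hrM : ∀ i, r i ∉ M := by
    intro i h
    rcases h with h | h
    · exact (heM i).1 ((hr i).symm.trans h)
    · exact (heM i).2 ((hr i).symm.trans h)
  let col : V → Fin 3 := fun x => if C x = 0 then 0 else if C x = 1 then 1 else 2
  have hcol : ∀ i x, C x = e i → col x = i := by
    intro i x hx
    fin_cases i
    · simp only [e] at hx; simp at hx; simp [col, hx]
    · simp only [e] at hx; simp at hx; simp [col, hx]
    · simp only [e] at hx; simp at hx; simp [col, hx]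
  let W : Set V := {x | x ∉ M ∧ ∀ i, x ≠ r i}
  let F := del G M
  have hrW : ∀ i, r i ∉ W := fun i h => h.2 i rfl
  have hrne : ∀ i j, i ≠ j → r i ≠ r j := by
    intro i j hij h
    exact heinj i j hij (by rw [← hr i, ← hr j, h])
  have hlk : ∀ i j, i ≠ j → (G.induce {x | C x = e i ∨ C x = e j}).Connected →
      Lk F col i j W {r i} {r j} := by
    intro i j hij hc
    refine lk_of_conn G C col W F (e i) (e j) i j (heinj i j hij) hc hprop ?_ (hcol i) (hcol j)
      (r i) (r j) (hr i) (hr j) ?_ (hrW j)
    · intro x y hx hy hxy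
      refine ⟨hxy, ?_, ?_⟩
      · intro h
        rcases hx with hx | hx <;> rcases h with h | h
        · exact (heM i).1 (hx.symm.trans h)
        · exact (heM i).2 (hx.symm.trans h)
        · exact (heM j).1 (hx.symm.trans h)
        · exact (heM j).2 (hx.symm.trans h)
      · intro h
        rcases hy with hx | hx <;> rcases h with h | h
        · exact (heM i).1 (hx.symm.trans h)
        · exact (heM i).2 (hx.symm.trans h)
        · exact (heM j).1 (hx.symm.trans h)
        · exact (heM j).2 (hx.symm.trans h)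
    · intro x hx hxi hxj
      refine ⟨?_, ?_⟩
      · intro h
        rcases hx with hx | hx <;> rcases h with h | h
        · exact (heM i).1 (hx.symm.trans h)
        · exact (heM i).2 (hx.symm.trans h)
        · exact (heM j).1 (hx.symm.trans h)
        · exact (heM j).2 (hx.symm.trans h)
      · intro k hk
        by_cases hki : k = i
        · exact hxi (hki ▸ hk)
        by_cases hkj : k = j
        · exact hxj (hkj ▸ hk)
        rcases hx with hx | hx
        · exact heinj k i hki ((hr k).symm.trans (hk ▸ hx))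
        · exact heinj k j hkj ((hr k).symm.trans (hk ▸ hx))
  have hL01 : Lk F col 0 1 W {r 0} {r 1} := hlk 0 1 (by decide) h01
  have hL02 : Lk F col 0 2 W {r 0} {r 2} := hlk 0 2 (by decide) h02
  have hL12 : Lk F col 1 2 W {r 1} {r 2} := hlk 1 2 (by decide) h12
  have hcr : ∀ i, ∀ x ∈ ({r i} : Set V), col x = i := by
    intro i x hx; rw [Set.mem_singleton_iff] at hx; subst hx; exact hcol i _ (hr i)
  obtain ⟨c, Y, hYW, hYY, hcR, hcon, hcross⟩ := k3 F col W (fun i => {r i}) hcr
    (fun i => by rw [Set.disjoint_left]; intro x hx; rw [Set.mem_singleton_iff] at hx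
                 subst hx; exact hrW i)
    (by
      intro i j hij
      fin_cases i <;> fin_cases j
      · exact absurd rfl hij
      · exact hL01
      · exact hL02
      · exact hL01.symm (by decide) (hcr 0)
      · exact absurd rfl hij
      · exact hL12
      · exact hL02.symm (by decide) (hcr 0)
      · exact hL12.symm (by decide) (hcr 1)
      · exact absurd rfl hij)
  -- the signs
  let c' : V → Bool := fun x => if x = p then false else if x ∈ M then decide (C x = C p) else c x
  have hpM : (p : V) ∈ M := p.2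
  have hc'p : c' p = false := by simp [c']
  have hc'M : ∀ x ∈ M, x ≠ p → c' x = decide (C x = C p) := by
    intro x hx hxp; simp only [c', if_neg hxp, if_pos hx]
  have hc'o : ∀ x, x ∉ M → c' x = c x := by
    intro x hx
    have : x ≠ p := fun h => hx (h ▸ hpM)
    simp only [c', if_neg this, if_neg hx]
  have hmp : m ≠ p := fun h => hqp (by rw [← hm, h])
  have hc'q : ∀ x, C x = q → c' x = false := by
    intro x hx
    have hxM : x ∈ M := by rcases hqM with h | h; exact Or.inl (hx.trans h); exact Or.inr (hx.trans h)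
    have hxp : x ≠ p := fun h => hqp (by rw [← hx, h])
    rw [hc'M x hxM hxp, hx]; simp [hqp]
  let X : Fin 3 → Set V := fun i => {r i} ∪ Y i
  have hXM : ∀ i, ∀ x ∈ X i, x ∉ M := by
    intro i x hx
    rcases hx with hx | hx
    · rw [Set.mem_singleton_iff] at hx; subst hx; exact hrM i
    · exact (hYW i hx).1
  have hcrr : ∀ i, c' (r i) = false := by
    intro i; rw [hc'o _ (hrM i)]; exact hcR i (r i) rfl
  have hconX : ∀ i, ∀ x ∈ X i, Con G c' (X i) {r i} x := by
    intro i x hx
    have h0 : Con F c (Y i) {r i} x := by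
      rcases hx with hx | hx
      · exact Con.base x hx
      · exact hcon i x hx
    have h1 := (h0.lift_graph (del_le G M)).congr (c' := c') (by
      intro z hz
      exact (hc'o z (hXM i z hz)).symm)
    exact h1.1.mono Set.subset_union_right (Set.Subset.refl _)
  have hXX : ∀ i j, i ≠ j → Disjoint (X i) (X j) := by
    intro i j hij
    rw [Set.disjoint_left]
    intro x hx hx'
    rcases hx with hx | hx <;> rcases hx' with hx' | hx'
    · rw [Set.mem_singleton_iff] at hx hx'
      exact hrne i j hij (hx.symm.trans hx')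
    · rw [Set.mem_singleton_iff] at hx; subst hx
      exact hrW i (hYW j hx')
    · rw [Set.mem_singleton_iff] at hx'; subst hx'
      exact hrW j (hYW i hx)
    · exact (Set.disjoint_left.mp (hYY i j hij)) hx hx'
  have hcX : ∀ i j, i ≠ j → ∃ x ∈ X i, ∃ y ∈ X j, G.Adj x y ∧ c' x = c' y := by
    intro i j hij
    obtain ⟨x, hx, y, hy, hxy, hcc⟩ := hcross i j hij
    exact ⟨x, hx, y, hy, hxy.1, by rw [hc'o x (hXM i x hx), hc'o y (hXM j y hy)]; exact hcc⟩
  have hconM : ∀ x ∈ M \ {(p : V)}, Con G c' (M \ {(p : V)}) {m} x := by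
    refine con_of_connected G M p hp c' ?_ m hmM hmp
    intro x hx y hy hxp hyp hxy
    rw [hc'M x hx hxp, hc'M y hy hyp]
    have hne := hprop x y hxy
    intro h
    rw [decide_eq_decide] at h
    have h3 : C p = 3 ∨ C p = 4 := p.2
    have hx' : C x = 3 ∨ C x = 4 := hx
    have hy' : C y = 3 ∨ C y = 4 := hy
    rcases h3 with h3 | h3 <;> rcases hx' with hx' | hx' <;> rcases hy' with hy' | hy' <;>
      rw [hx', hy'] at hne <;> rw [hx', hy', h3] at h <;> revert hne h <;> decide
  let Z : Fin 5 → Set V := ![{(p : V)}, M \ {(p : V)}, X 0, X 1, X 2]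
  let ρ : Fin 5 → V := ![p, m, r 0, r 1, r 2]
  have hdp : ∀ i, Disjoint ({(p : V)} : Set V) (X i) := by
    intro i; rw [Set.disjoint_left]; intro x hx hx'
    rw [Set.mem_singleton_iff] at hx; subst hx; exact hXM i _ hx' hpM
  have hdm : ∀ i, Disjoint (M \ {(p : V)}) (X i) := by
    intro i; rw [Set.disjoint_left]; intro x hx hx'
    exact hXM i _ hx' hx.1
  have hdpm : Disjoint ({(p : V)} : Set V) (M \ {(p : V)}) := by
    rw [Set.disjoint_left]; intro x hx hx'; exact hx'.2 hx
  have hcp : ∀ i, ∃ x ∈ ({(p : V)} : Set V), ∃ y ∈ X i, G.Adj x y ∧ c' x = c' y := fun i =>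
    ⟨p, rfl, r i, Or.inl rfl, hpr i, by rw [hc'p, hcrr]⟩
  have hcm : ∀ i, ∃ x ∈ M \ {(p : V)}, ∃ y ∈ X i, G.Adj x y ∧ c' x = c' y := by
    intro i
    have hqi : q ≠ C (r i) := by
      rw [hr i]; rcases hqM with h | h
      · rw [h]; exact (heM i).1.symm
      · rw [h]; exact (heM i).2.symm
    obtain ⟨y, hry, hy⟩ := hfall (r i) q hqi
    have hyM : y ∈ M := by rcases hqM with h | h; exact Or.inl (hy.trans h); exact Or.inr (hy.trans h)
    have hyp : y ≠ p := fun h => hqp (by rw [← hy, h])
    exact ⟨y, ⟨hyM, hyp⟩, r i, Or.inl rfl, hry.symm, by rw [hc'q y hy, hcrr]⟩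
  refine hasOddK_of 5 G c' Z ρ ?_ ?_ ?_ ?_
  · intro i
    fin_cases i
    · exact rfl
    · exact ⟨hmM, hmp⟩
    · exact Or.inl rfl
    · exact Or.inl rfl
    · exact Or.inl rfl
  · intro i
    fin_cases i
    · exact fun x hx => Con.base x hx
    · exact hconM
    · exact hconX 0
    · exact hconX 1
    · exact hconX 2
  · intro i j hij
    fin_cases i <;> fin_cases j
    · exact absurd rfl hij
    · exact hdpm
    · exact hdp 0
    · exact hdp 1
    · exact hdp 2
    · exact hdpm.symm
    · exact absurd rfl hij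
    · exact hdm 0
    · exact hdm 1
    · exact hdm 2
    · exact (hdp 0).symm
    · exact (hdm 0).symm
    · exact absurd rfl hij
    · exact hXX 0 1 (by decide)
    · exact hXX 0 2 (by decide)
    · exact (hdp 1).symm
    · exact (hdm 1).symm
    · exact hXX 1 0 (by decide)
    · exact absurd rfl hij
    · exact hXX 1 2 (by decide)
    · exact (hdp 2).symm
    · exact (hdm 2).symm
    · exact hXX 2 0 (by decide)
    · exact hXX 2 1 (by decide)
    · exact absurd rfl hij
  · intro i j hij
    fin_cases i <;> fin_cases j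
    · exact absurd hij (by decide)
    · exact ⟨p, rfl, m, ⟨hmM, hmp⟩, hpm, by rw [hc'p, hc'q m hm]⟩
    · exact hcp 0
    · exact hcp 1
    · exact hcp 2
    · exact absurd hij (by decide)
    · exact absurd hij (by decide)
    · exact hcm 0
    · exact hcm 1
    · exact hcm 2
    · exact absurd hij (by decide)
    · exact absurd hij (by decide)
    · exact absurd hij (by decide)
    · exact hcX 0 1 (by decide)
    · exact hcX 0 2 (by decide)
    · exact absurd hij (by decide)
    · exact absurd hij (by decide)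
    · exact absurd hij (by decide)
    · exact absurd hij (by decide)
    · exact hcX 1 2 (by decide)
    · exact absurd hij (by decide)
    · exact absurd hij (by decide)
    · exact absurd hij (by decide)
    · exact absurd hij (by decide)
    · exact absurd hij (by decide)

/-- uniquely colourable graphs: two classes induce a connected graph -/
theorem unique_connected {n : ℕ} (G : SimpleGraph V) (C : G.Coloring (Fin n))
    (huniq : ∀ D : G.Coloring (Fin n), ∀ x y, D x = D y ↔ C x = C y)
    (hsurj : ∀ i, ∃ x, C x = i) (i j : Fin n) (hij : i ≠ j) :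
    (G.induce {x | C x = i ∨ C x = j}).Connected := by
  classical
  set S : Set V := {x | C x = i ∨ C x = j} with hS
  obtain ⟨a, ha⟩ := hsurj i
  have : Nonempty S := ⟨⟨a, Or.inl ha⟩⟩
  refine ⟨fun u v => ?_⟩
  by_contra hnr
  -- flip the component of u
  let K : Set V := {x | ∃ hx : x ∈ S, (G.induce S).Reachable u ⟨x, hx⟩}
  have huK : (u : V) ∈ K := ⟨u.2, SimpleGraph.Reachable.refl _⟩
  have hvK : (v : V) ∉ K := fun ⟨_, h⟩ => hnr h
  have hKadj : ∀ x y, x ∈ K → y ∈ S → G.Adj x y → y ∈ K := by
    intro x y hx hy hxy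
    obtain ⟨hx, h⟩ := hx
    exact ⟨hy, h.trans (SimpleGraph.Adj.reachable (show (G.induce S).Adj ⟨x, hx⟩ ⟨y, hy⟩ from hxy))⟩
  let d : V → Fin n := fun x => if x ∈ K then (if C x = i then j else i) else C x
  have hKS : ∀ x ∈ K, C x = i ∨ C x = j := fun x hx => hx.1
  have hd : ∀ x y, G.Adj x y → d x ≠ d y := by
    intro x y hxy
    have hne := C.valid hxy
    by_cases hx : x ∈ K <;> by_cases hy : y ∈ K
    · simp only [d, if_pos hx, if_pos hy]
      rcases hKS x hx with h | h <;> rcases hKS y hy with h' | h' <;> rw [h, h'] at hne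
      · exact absurd rfl hne
      · simp [h, h', hij.symm]
      · simp [h, h', hij.symm, hij]
      · exact absurd rfl hne
    · simp only [d, if_pos hx, if_neg hy]
      intro h
      apply hy
      refine hKadj x y hx ?_ hxy
      by_cases hxi : C x = i
      · rw [if_pos hxi] at h; exact Or.inr h.symm
      · rw [if_neg hxi] at h; exact Or.inl h.symm
    · simp only [d, if_neg hx, if_pos hy]
      intro h
      apply hx
      refine hKadj y x hy ?_ hxy.symm
      by_cases hyi : C y = i
      · rw [if_pos hyi] at h; exact Or.inr h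
      · rw [if_neg hyi] at h; exact Or.inl h
    · simp only [d, if_neg hx, if_neg hy]; exact hne
  have hu := huniq (SimpleGraph.Coloring.mk d (fun {x y} h => hd x y h)) u v
  change d u = d v ↔ C u = C v at hu
  simp only [d, if_pos huK, if_neg hvK] at hu
  rcases u.2 with h | h <;> rcases v.2 with h' | h'
  · rw [h, h'] at hu; simp at hu; exact hij hu.symm
  · rw [h, h'] at hu; simp at hu; exact hij hu
  · rw [h, h'] at hu; simp [hij.symm] at hu
  · rw [h, h'] at hu; simp [hij.symm] at hu; exact hij hu

/-- every uniquely 5-colourable graph contains an odd-`K_5` -/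
theorem unique5 [Finite V] (G : SimpleGraph V) (h4 : ¬ G.Colorable 4) (h5 : G.Colorable 5)
    (huniq : ∀ C D : G.Coloring (Fin 5), ∀ x y, D x = D y ↔ C x = C y) : HasOddK 5 G := by
  classical
  obtain ⟨C⟩ := h5
  have hsurj : ∀ i, ∃ x, C x = i := by
    intro i
    by_contra hno
    push Not at hno
    apply h4
    have e : {j : Fin 5 // j ≠ i} ≃ Fin 4 := Fintype.equivFinOfCardEq (by simp)
    refine ⟨SimpleGraph.Coloring.mk (fun x => e ⟨C x, hno x⟩) ?_⟩
    intro x y hxy h
    have := e.injective h
    exact C.valid hxy (congrArg Subtype.val this)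
  have hc := unique_connected G C (huniq C) hsurj
  have hfall : ∀ x i, i ≠ C x → ∃ y, G.Adj x y ∧ C y = i := by
    intro x i hi
    obtain ⟨z, hz⟩ := hsurj i
    obtain ⟨w⟩ := (hc (C x) i hi.symm).preconnected ⟨x, Or.inl rfl⟩ ⟨z, Or.inr hz⟩
    cases w with
    | nil => exact absurd hz.symm hi
    | @cons _ y _ hxy _ =>
      have hadj : G.Adj x y := hxy
      refine ⟨y, hadj, ?_⟩
      rcases y.2 with h | h
      · exact absurd h.symm (C.valid hadj)
      · exact h
  exact frozen5 G C (fun x y h => C.valid h) hfall (hc 0 1 (by decide)) (hc 0 2 (by decide))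
    (hc 1 2 (by decide)) (hc 3 4 (by decide))

end Run7.h886
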