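import Mathlib
import Pool.Agent.Run7.h886.Build

set_option autoImplicit false

namespace Run7.h886

variable {V : Type*}

theorem con_reach (F : SimpleGraph V) (c : V → Bool) (hc : ∀ z w, F.Adj z w → c z ≠ c w)
    (r z : V) (h : F.Reachable r z) : Con F c {z | F.Reachable r z} {r} z := by
  have key : ∀ (a b : V), F.Walk a b → F.Reachable r a → Con F c {z | F.Reachable r z} {r} a →
      Con F c {z | F.Reachable r z} {r} b := by
    intro a b w
    induction w with
    | nil => exact fun _ h => h
    | @cons a a' b haa' w ih =>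
      intro ha hcon
      have ha' : F.Reachable r a' := ha.trans haa'.reachable
      exact ih ha' (Con.step a a' hcon haa' ha' (hc _ _ haa'))
  obtain ⟨w⟩ := h
  exact key r z w (SimpleGraph.Reachable.refl _) (Con.base r rfl)

theorem reach_avoid (G : SimpleGraph V) (U : Set V) (r z : V) (hr : r ∉ U)
    (h : (del G U).Reachable r z) : z ∉ U := by
  obtain ⟨w⟩ := h
  induction w with
  | nil => exact hr
  | @cons a a' b haa' w ih => exact ih haa'.2.2

/-- Case A: a component which, on one side, sees the whole clique. -/
theorem oct_caseA [Finite V] (G : SimpleGraph V) (x : Fin 4 → V)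
    (hcl : ∀ i j, i ≠ j → G.Adj (x i) (x j)) (U : Set V) (hU : U = Set.range x)
    (β : V → Fin 2) (hβ : ∀ z w, (del G U).Adj z w → β z ≠ β w) (s : Fin 2) (r : V) (hr : r ∉ U)
    (h : ∀ i, ∃ z, (del G U).Reachable r z ∧ β z = s ∧ G.Adj (x i) z) : HasOddK 5 G := by
  classical
  have hxU : ∀ i, x i ∈ U := fun i => hU ▸ ⟨i, rfl⟩
  have hCU : ∀ z, (del G U).Reachable r z → z ∉ U := fun z hz => reach_avoid G U r z hr hz
  let c : V → Bool := fun z => if z ∈ U then false else decide (β z ≠ s)
  have hcx : ∀ i, c (x i) = false := fun i => by simp [c, hxU i]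
  have hcs : ∀ z, z ∉ U → β z = s → c z = false := fun z hz hs => by simp [c, hz, hs]
  have hcF : ∀ z w, (del G U).Adj z w → c z ≠ c w := by
    intro z w hzw
    have h1 : z ∉ U := hzw.2.1
    have h2 : w ∉ U := hzw.2.2
    have h3 := hβ z w hzw
    simp only [c, if_neg h1, if_neg h2]
    intro h
    rw [decide_eq_decide] at h
    have hfin : ∀ p q s : Fin 2, p ≠ q → (p ≠ s ↔ q ≠ s) → False := by decide
    exact hfin _ _ _ h3 h
  have hdx : ∀ i j, i ≠ j → Disjoint ({x i} : Set V) {x j} := by
    intro i j hij; rw [Set.disjoint_singleton]; exact (hcl i j hij).ne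
  let C : Set V := {z | (del G U).Reachable r z}
  have hdC : ∀ i, Disjoint ({x i} : Set V) C := by
    intro i; rw [Set.disjoint_left]; intro z hz hz'
    rw [Set.mem_singleton_iff] at hz; subst hz; exact hCU _ hz' (hxU i)
  have hxx : ∀ i j, i ≠ j → ∃ a ∈ ({x i} : Set V), ∃ b ∈ ({x j} : Set V), G.Adj a b ∧ c a = c b :=
    fun i j hij => ⟨x i, rfl, x j, rfl, hcl i j hij, by rw [hcx, hcx]⟩
  have hxC : ∀ i, ∃ a ∈ ({x i} : Set V), ∃ b ∈ C, G.Adj a b ∧ c a = c b := by
    intro i
    obtain ⟨z, hz, hzs, hxz⟩ := h i
    exact ⟨x i, rfl, z, hz, hxz, by rw [hcx, hcs z (hCU z hz) hzs]⟩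
  let Z : Fin 5 → Set V := ![{x 0}, {x 1}, {x 2}, {x 3}, C]
  let ρ : Fin 5 → V := ![x 0, x 1, x 2, x 3, r]
  refine hasOddK_of 5 G c Z ρ ?_ ?_ ?_ ?_
  · intro i
    fin_cases i
    · exact rfl
    · exact rfl
    · exact rfl
    · exact rfl
    · exact SimpleGraph.Reachable.refl _
  · intro i
    fin_cases i
    · exact fun z hz => Con.base z hz
    · exact fun z hz => Con.base z hz
    · exact fun z hz => Con.base z hz
    · exact fun z hz => Con.base z hz
    · exact fun z hz => (con_reach (del G U) c hcF r z hz).lift_graph (del_le G U)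
  · intro i j hij
    fin_cases i <;> fin_cases j
    · exact absurd rfl hij
    · exact hdx 0 1 (by decide)
    · exact hdx 0 2 (by decide)
    · exact hdx 0 3 (by decide)
    · exact hdC 0
    · exact hdx 1 0 (by decide)
    · exact absurd rfl hij
    · exact hdx 1 2 (by decide)
    · exact hdx 1 3 (by decide)
    · exact hdC 1
    · exact hdx 2 0 (by decide)
    · exact hdx 2 1 (by decide)
    · exact absurd rfl hij
    · exact hdx 2 3 (by decide)
    · exact hdC 2
    · exact hdx 3 0 (by decide)
    · exact hdx 3 1 (by decide)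
    · exact hdx 3 2 (by decide)
    · exact absurd rfl hij
    · exact hdC 3
    · exact (hdC 0).symm
    · exact (hdC 1).symm
    · exact (hdC 2).symm
    · exact (hdC 3).symm
    · exact absurd rfl hij
  · intro i j hij
    fin_cases i <;> fin_cases j
    · exact absurd hij (by decide)
    · exact hxx 0 1 (by decide)
    · exact hxx 0 2 (by decide)
    · exact hxx 0 3 (by decide)
    · exact hxC 0
    · exact absurd hij (by decide)
    · exact absurd hij (by decide)
    · exact hxx 1 2 (by decide)
    · exact hxx 1 3 (by decide)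
    · exact hxC 1
    · exact absurd hij (by decide)
    · exact absurd hij (by decide)
    · exact absurd hij (by decide)
    · exact hxx 2 3 (by decide)
    · exact hxC 2
    · exact absurd hij (by decide)
    · exact absurd hij (by decide)
    · exact absurd hij (by decide)
    · exact absurd hij (by decide)
    · exact hxC 3
    · exact absurd hij (by decide)
    · exact absurd hij (by decide)
    · exact absurd hij (by decide)
    · exact absurd hij (by decide)
    · exact absurd hij (by decide)

/-- Case C: two vertices on different sides of a component, both seeing the triangle `y`. -/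
theorem oct_caseC [Finite V] (G : SimpleGraph V) (y : Fin 3 → V)
    (hcl : ∀ i j, i ≠ j → G.Adj (y i) (y j)) (U : Set V) (hyU : ∀ i, y i ∈ U)
    (β : V → Fin 2) (hβ : ∀ z w, (del G U).Adj z w → β z ≠ β w) (b b' : V)
    (hb'U : b' ∉ U)
    (hbb : (del G U).Reachable b' b) (hne : β b ≠ β b')
    (h1 : ∀ i, G.Adj (y i) b) (h2 : ∀ i, G.Adj (y i) b') : HasOddK 5 G := by
  classical
  let F := del G U
  have hbb' : b' ≠ b := fun h => hne (by rw [h])
  let F' := del F {b}
  let Y : Set V := {z | F'.Reachable b' z}
  have hYb : ∀ z ∈ Y, z ≠ b := by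
    intro z hz
    have := reach_avoid F {b} b' z (by simpa using hbb') hz
    simpa using this
  have hYU : ∀ z ∈ Y, z ∉ U := by
    intro z hz
    exact reach_avoid G U b' z hb'U (hz.mono (del_le F {b}))
  let c : V → Bool := fun z => if z ∈ U ∨ z = b then false else decide (β z ≠ β b')
  have hcy : ∀ i, c (y i) = false := fun i => by simp [c, hyU i]
  have hcb : c b = false := by simp [c]
  have hcs : ∀ z, β z = β b' → c z = false := by
    intro z hz
    simp only [c, hz]; simp
  have hcF : ∀ z w, F'.Adj z w → c z ≠ c w := by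
    intro z w hzw
    have hzb : z ≠ b := by simpa using hzw.2.1
    have hwb : w ≠ b := by simpa using hzw.2.2
    have h1 : ¬ (z ∈ U ∨ z = b) := by push Not; exact ⟨hzw.1.2.1, hzb⟩
    have h2 : ¬ (w ∈ U ∨ w = b) := by push Not; exact ⟨hzw.1.2.2, hwb⟩
    have h3 := hβ z w hzw.1
    simp only [c, if_neg h1, if_neg h2]
    intro h
    rw [decide_eq_decide] at h
    revert h h3
    generalize β z = p; generalize β w = q; generalize β b' = s
    revert p q s; decide
  obtain ⟨y1, hy1, hy1b⟩ : ∃ y1 ∈ Y, F.Adj y1 b := by
    have key : ∀ (z t : V), F.Walk z t → t = b → z ∈ Y → ∃ y1 ∈ Y, F.Adj y1 b := by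
      intro z t w
      induction w with
      | nil => intro ht hz; exact absurd ht (hYb _ hz)
      | @cons z z' t hzz' w ih =>
        intro ht hz
        by_cases hz' : z' = b
        · exact ⟨z, hz, hz' ▸ hzz'⟩
        · refine ih ht ?_
          have : F'.Adj z z' := ⟨hzz', by simpa using hYb z hz, by simpa using hz'⟩
          exact SimpleGraph.Reachable.trans hz this.reachable
    obtain ⟨w⟩ := hbb
    exact key b' b w rfl (SimpleGraph.Reachable.refl _)
  have hcy1 : c y1 = false := by
    apply hcs
    have h3 := hβ y1 b hy1b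
    revert h3 hne
    generalize β y1 = p; generalize β b = q; generalize β b' = s
    revert p q s; decide
  have hdy : ∀ i j, i ≠ j → Disjoint ({y i} : Set V) {y j} := by
    intro i j hij; rw [Set.disjoint_singleton]; exact (hcl i j hij).ne
  have hdb : ∀ i, Disjoint ({y i} : Set V) {b} := by
    intro i; rw [Set.disjoint_singleton]; exact (h1 i).ne
  have hdY : ∀ i, Disjoint ({y i} : Set V) Y := by
    intro i; rw [Set.disjoint_left]; intro z hz hz'
    rw [Set.mem_singleton_iff] at hz; subst hz; exact hYU _ hz' (hyU i)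
  have hdbY : Disjoint ({b} : Set V) Y := by
    rw [Set.disjoint_left]; intro z hz hz'; exact hYb z hz' hz
  have hyy : ∀ i j, i ≠ j → ∃ a ∈ ({y i} : Set V), ∃ d ∈ ({y j} : Set V), G.Adj a d ∧ c a = c d :=
    fun i j hij => ⟨y i, rfl, y j, rfl, hcl i j hij, by rw [hcy, hcy]⟩
  have hyb : ∀ i, ∃ a ∈ ({y i} : Set V), ∃ d ∈ ({b} : Set V), G.Adj a d ∧ c a = c d :=
    fun i => ⟨y i, rfl, b, rfl, h1 i, by rw [hcy, hcb]⟩
  have hyY : ∀ i, ∃ a ∈ ({y i} : Set V), ∃ d ∈ Y, G.Adj a d ∧ c a = c d :=
    fun i => ⟨y i, rfl, b', SimpleGraph.Reachable.refl _, h2 i, by rw [hcy, hcs b' rfl]⟩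
  have hbY : ∃ a ∈ ({b} : Set V), ∃ d ∈ Y, G.Adj a d ∧ c a = c d :=
    ⟨b, rfl, y1, hy1, hy1b.1.symm, by rw [hcb, hcy1]⟩
  let Z : Fin 5 → Set V := ![{y 0}, {y 1}, {y 2}, {b}, Y]
  let ρ : Fin 5 → V := ![y 0, y 1, y 2, b, b']
  refine hasOddK_of 5 G c Z ρ ?_ ?_ ?_ ?_
  · intro i
    fin_cases i
    · exact rfl
    · exact rfl
    · exact rfl
    · exact rfl
    · exact SimpleGraph.Reachable.refl _
  · intro i
    fin_cases i
    · exact fun z hz => Con.base z hz
    · exact fun z hz => Con.base z hz
    · exact fun z hz => Con.base z hz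
    · exact fun z hz => Con.base z hz
    · exact fun z hz => (con_reach F' c hcF b' z hz).lift_graph
        (le_trans (del_le F {b}) (del_le G U))
  · intro i j hij
    fin_cases i <;> fin_cases j
    · exact absurd rfl hij
    · exact hdy 0 1 (by decide)
    · exact hdy 0 2 (by decide)
    · exact hdb 0
    · exact hdY 0
    · exact hdy 1 0 (by decide)
    · exact absurd rfl hij
    · exact hdy 1 2 (by decide)
    · exact hdb 1
    · exact hdY 1
    · exact hdy 2 0 (by decide)
    · exact hdy 2 1 (by decide)
    · exact absurd rfl hij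
    · exact hdb 2
    · exact hdY 2
    · exact (hdb 0).symm
    · exact (hdb 1).symm
    · exact (hdb 2).symm
    · exact absurd rfl hij
    · exact hdbY
    · exact (hdY 0).symm
    · exact (hdY 1).symm
    · exact (hdY 2).symm
    · exact hdbY.symm
    · exact absurd rfl hij
  · intro i j hij
    fin_cases i <;> fin_cases j
    · exact absurd hij (by decide)
    · exact hyy 0 1 (by decide)
    · exact hyy 0 2 (by decide)
    · exact hyb 0
    · exact hyY 0
    · exact absurd hij (by decide)
    · exact absurd hij (by decide)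
    · exact hyy 1 2 (by decide)
    · exact hyb 1
    · exact hyY 1
    · exact absurd hij (by decide)
    · exact absurd hij (by decide)
    · exact absurd hij (by decide)
    · exact hyb 2
    · exact hyY 2
    · exact absurd hij (by decide)
    · exact absurd hij (by decide)
    · exact absurd hij (by decide)
    · exact absurd hij (by decide)
    · exact hbY
    · exact absurd hij (by decide)
    · exact absurd hij (by decide)
    · exact absurd hij (by decide)
    · exact absurd hij (by decide)
    · exact absurd hij (by decide)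

theorem fin4_others (i j : Fin 4) (h : i ≠ j) : ∃ k l : Fin 4, ∀ a, a = i ∨ a = j ∨ a = k ∨ a = l := by
  revert i j; decide

/-- Gerards' conjecture for graphs made bipartite by deleting four vertices. -/
theorem oct4 [Finite V] (G : SimpleGraph V) (x : Fin 4 → V)
    (h2 : (G.induce ((Set.range x)ᶜ : Set V)).Colorable 2) (hK : ¬ HasOddK 5 G) :
    G.Colorable 4 := by
  classical
  set U : Set V := Set.range x with hU
  have hxU : ∀ i, x i ∈ U := fun i => ⟨i, rfl⟩
  have h2' := del_colorable G U 2 h2
  set F := del G U with hF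
  obtain ⟨β⟩ := h2'
  have hβ : ∀ z w, F.Adj z w → β z ≠ β w := fun z w h => β.valid h
  by_cases hcl : ∃ i j, i ≠ j ∧ ¬ G.Adj (x i) (x j)
  · obtain ⟨i, j, hij, hnadj⟩ := hcl
    obtain ⟨k, l, hall⟩ := fin4_others i j hij
    refine two_del G (x k) (x l) ?_ hK
    have hinj : Function.Injective (Fin.castSucc : Fin 2 → Fin 3) := Fin.castSucc_injective 2
    have hcs : ∀ i : Fin 2, (Fin.castSucc i : Fin 3) ≠ 2 := by decide
    have hmem : ∀ z : (({x k, x l} : Set V)ᶜ : Set V), (z : V) ∈ U → (z : V) = x i ∨ (z : V) = x j := by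
      intro z hz
      obtain ⟨a, ha⟩ := hz
      have hz' : ¬ ((z : V) = x k ∨ (z : V) = x l) := z.2
      rcases hall a with h | h | h | h
      · left; rw [← ha, h]
      · right; rw [← ha, h]
      · exact absurd (Or.inl (by rw [← ha, h])) hz'
      · exact absurd (Or.inr (by rw [← ha, h])) hz'
    refine ⟨SimpleGraph.Coloring.mk
      (fun z => if (z : V) ∈ U then 2 else Fin.castSucc (β (z : V))) ?_⟩
    intro z w hzw
    have hadj : G.Adj (z : V) (w : V) := hzw
    by_cases hz : (z : V) ∈ U <;> by_cases hw : (w : V) ∈ U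
    · exfalso
      rcases hmem z hz with h | h <;> rcases hmem w hw with h' | h' <;> rw [h, h'] at hadj
      · exact G.loopless.irrefl _ hadj
      · exact hnadj hadj
      · exact hnadj hadj.symm
      · exact G.loopless.irrefl _ hadj
    · simp only [if_pos hz, if_neg hw]; exact (hcs _).symm
    · simp only [if_neg hz, if_pos hw]; exact hcs _
    · simp only [if_neg hz, if_neg hw]
      exact fun h => hβ z w ⟨hadj, hz, hw⟩ (hinj h)
  · push Not at hcl
    -- every component can be coloured
    have key : ∀ K : F.ConnectedComponent, ∃ d : V → Fin 4,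
        (∀ z w, F.connectedComponentMk z = K → F.Adj z w → d z ≠ d w) ∧
        (∀ z, F.connectedComponentMk z = K → z ∉ U → ∀ i, G.Adj (x i) z → d z ≠ i) := by
      intro K
      by_contra hno
      have hsee : ∀ s : Fin 2, ∃ i : Fin 4, ∀ z, F.connectedComponentMk z = K → z ∉ U → β z = s →
          ¬ G.Adj (x i) z := by
        intro s
        by_contra hcon
        push Not at hcon
        obtain ⟨r, hrK, hrU, -, -⟩ := hcon 0
        apply hK
        refine oct_caseA G x hcl U hU (fun z => β z) hβ s r hrU ?_
        intro i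
        obtain ⟨z, hz, hzU, hzs, hxz⟩ := hcon i
        exact ⟨z, SimpleGraph.ConnectedComponent.exact (hrK.trans hz.symm), hzs, hxz⟩
      have hs01 : ∀ s : Fin 2, s = 0 ∨ s = 1 := by decide
      -- different missing colours
      have hB : ∀ i j : Fin 4, i ≠ j →
          (∀ z, F.connectedComponentMk z = K → z ∉ U → β z = 0 → ¬ G.Adj (x i) z) →
          (∀ z, F.connectedComponentMk z = K → z ∉ U → β z = 1 → ¬ G.Adj (x j) z) → False := by
        intro i j hij hi hj
        apply hno
        refine ⟨fun z => if β z = 0 then i else j, ?_, ?_⟩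
        · intro z w hz hzw
          have hne := hβ z w hzw
          rcases hs01 (β z) with h | h <;> rcases hs01 (β w) with h' | h' <;> rw [h, h'] at hne
          · exact absurd rfl hne
          · simp [h, h', hij]
          · simp [h, h', hij.symm]
          · exact absurd rfl hne
        · intro z hz hzU k hk
          rcases hs01 (β z) with h | h
          · simp only [h, if_true]
            intro hik; subst hik; exact hi z hz hzU h hk
          · simp only [h]; simp only [show ¬ ((1 : Fin 2) = 0) by decide, if_false]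
            intro hik; subst hik; exact hj z hz hzU h hk
      obtain ⟨i, hi⟩ := hsee 0
      obtain ⟨j, hj⟩ := hsee 1
      have hij : i = j := by
        by_contra hij; exact hB i j hij hi hj
      subst hij
      have hiall : ∀ z, F.connectedComponentMk z = K → z ∉ U → ¬ G.Adj (x i) z := by
        intro z hz hzU
        rcases hs01 (β z) with h | h
        · exact hi z hz hzU h
        · exact hj z hz hzU h
      -- case C1
      have hC : ∀ s : Fin 2, ∃ z, F.connectedComponentMk z = K ∧ z ∉ U ∧ β z = s ∧
          ∀ k, k ≠ i → G.Adj (x k) z := by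
        intro s
        by_contra hcon
        push Not at hcon
        have hch : ∀ z, ∃ k, k ≠ i ∧ (F.connectedComponentMk z = K → z ∉ U → β z = s →
            ¬ G.Adj (x k) z) := by
          intro z
          by_cases hz : F.connectedComponentMk z = K ∧ z ∉ U ∧ β z = s
          · obtain ⟨k, hk, hk'⟩ := hcon z hz.1 hz.2.1 hz.2.2
            exact ⟨k, hk, fun _ _ _ => hk'⟩
          · have hex : ∀ i : Fin 4, ∃ k : Fin 4, k ≠ i := by decide
            obtain ⟨k, hk⟩ := hex i
            exact ⟨k, hk, fun a b c => absurd ⟨a, b, c⟩ hz⟩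
        choose g hg1 hg2 using hch
        apply hno
        refine ⟨fun z => if β z = s then g z else i, ?_, ?_⟩
        · intro z w hz hzw
          have hne := hβ z w hzw
          by_cases h : β z = s <;> by_cases h' : β w = s
          · exact absurd (h.trans h'.symm) hne
          · simp only [if_pos h, if_neg h']; exact hg1 z
          · simp only [if_neg h, if_pos h']; exact (hg1 w).symm
          · exfalso
            have : ∀ p q s : Fin 2, p ≠ q → p ≠ s → q ≠ s → False := by decide
            exact this _ _ _ hne h h'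
        · intro z hz hzU k hk
          by_cases h : β z = s
          · simp only [if_pos h]
            intro hgk; rw [← hgk] at hk; exact hg2 z hz hzU h hk
          · simp only [if_neg h]
            intro hik; subst hik; exact hiall z hz hzU hk
      obtain ⟨b, hbK, hbU, hb0, hb⟩ := hC 0
      obtain ⟨b', hb'K, hb'U, hb'1, hb'⟩ := hC 1
      apply hK
      refine oct_caseC G (fun m : Fin 3 => x (i.succAbove m)) ?_ U (fun m => hxU _) (fun z => β z)
        hβ b b' hb'U (SimpleGraph.ConnectedComponent.exact (hb'K.trans hbK.symm)) ?_ ?_ ?_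
      · intro m n hmn
        exact hcl _ _ (fun h => hmn (Fin.succAbove_right_injective h))
      · simp only [hb0, hb'1]; decide
      · intro m; exact hb _ (Fin.succAbove_ne i m)
      · intro m; exact hb' _ (Fin.succAbove_ne i m)
    choose d hd1 hd2 using key
    have hxinj : Function.Injective x := by
      intro i j hij
      by_contra h
      exact (hcl i j h).ne hij
    let idx : V → Fin 4 := fun z => if h : z ∈ U then h.choose else 0
    have hidx : ∀ i, idx (x i) = i := by
      intro i
      have h : x i ∈ U := hxU i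
      simp only [idx, dif_pos h]
      exact hxinj h.choose_spec
    let D : V → Fin 4 := fun z => if z ∈ U then idx z else d (F.connectedComponentMk z) z
    refine ⟨SimpleGraph.Coloring.mk D ?_⟩
    intro z w hzw
    by_cases hz : z ∈ U <;> by_cases hw : w ∈ U
    · simp only [D, if_pos hz, if_pos hw]
      obtain ⟨i, rfl⟩ := hz
      obtain ⟨j, rfl⟩ := hw
      rw [hidx, hidx]
      intro h; subst h; exact G.loopless.irrefl _ hzw
    · simp only [D, if_pos hz, if_neg hw]
      obtain ⟨i, rfl⟩ := hz
      rw [hidx]
      exact (hd2 _ w rfl hw i hzw).symm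
    · simp only [D, if_neg hz, if_pos hw]
      obtain ⟨i, rfl⟩ := hw
      rw [hidx]
      exact hd2 _ z rfl hz i hzw.symm
    · simp only [D, if_neg hz, if_neg hw]
      have hFzw : F.Adj z w := ⟨hzw, hz, hw⟩
      have hcomp : F.connectedComponentMk z = F.connectedComponentMk w :=
        SimpleGraph.ConnectedComponent.sound hFzw.reachable
      rw [← hcomp]
      exact hd1 _ z w rfl hFzw

/-- Gerards' conjecture for graphs with an odd cycle transversal of size at most four. -/
theorem oct4' [Finite V] (G : SimpleGraph V) (U : Finset V) (hU : U.card ≤ 4)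
    (h2 : (G.induce ((U : Set V)ᶜ : Set V)).Colorable 2) (hK : ¬ HasOddK 5 G) :
    G.Colorable 4 := by
  classical
  rcases isEmpty_or_nonempty V with hV | hV
  · exact ⟨SimpleGraph.Coloring.mk (fun x => (hV.false x).elim) (fun {x} _ => (hV.false x).elim)⟩
  obtain ⟨e⟩ : Nonempty (U ↪ Fin 4) :=
    Function.Embedding.nonempty_of_card_le (by simpa using hU)
  obtain ⟨v0⟩ := hV
  let x : Fin 4 → V := fun i => if h : ∃ u : U, e u = i then (h.choose : V) else v0
  have hx : ∀ u : U, x (e u) = u := by
    intro u
    have h : ∃ u' : U, e u' = e u := ⟨u, rfl⟩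
    simp only [x, dif_pos h]
    exact congrArg Subtype.val (e.injective h.choose_spec)
  refine oct4 G x ?_ hK
  obtain ⟨χ⟩ := h2
  have hsub : ∀ z, z ∈ ((Set.range x)ᶜ : Set V) → z ∈ ((U : Set V)ᶜ : Set V) := by
    intro z hz hzU
    exact hz ⟨e ⟨z, hzU⟩, hx ⟨z, hzU⟩⟩
  refine ⟨SimpleGraph.Coloring.mk (fun z => χ ⟨z, hsub z z.2⟩) ?_⟩
  intro z w hzw
  exact χ.valid (show (G.induce ((U : Set V)ᶜ : Set V)).Adj _ _ from hzw)

end Run7.h886
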